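import Mathlib

set_option autoImplicit false

/-!
Definitions for the project on irregular pairs (MP_4a79a0_nt).
-/

namespace Pool.Agent.IrrPairs

/-- The index of irregularity of `p`: the number of `k` with `2 ≤ 2k ≤ p - 3` such that
`p` divides the numerator of the Bernoulli number `B_{2k}`. -/
def irr (p : ℕ) : ℕ :=
  ((Finset.Icc 1 ((p - 3) / 2)).filter
    (fun k : ℕ => (p : ℤ) ∣ (bernoulli (2 * k)).num)).card

/-- The positive rational number with `zeta(2k) / zeta(2k+2h) = rr h k / pi^(2h)`. -/
def rr (h k : ℕ) : ℚ :=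
  |bernoulli (2 * k)| / |bernoulli (2 * (k + h))|
    * (((2 * (k + h)).factorial : ℚ) / ((2 * k).factorial : ℚ)) / 4 ^ h

end Pool.Agent.IrrPairs
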