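import Pool.Agent.IrrPairs.Defs

set_option autoImplicit false

/-!
Kummer's congruence mod `q` for Bernoulli numbers, in the form needed here: if a prime `q ≥ 5`
with `q ∤ k` divides the numerator of `B_{2k}`, then it divides the numerator of `B_{2l}` with
`l` the remainder of `k` mod `(q - 1) / 2` (which is not `0`).  The proof is Voronoi's.
-/

namespace Pool.Agent.IrrPairs

open Finset

namespace RowA

/-- `x` has `q`-adic valuation at least `e`. -/
def I (q : ℕ) (e : ℤ) (x : ℚ) : Prop := padicNorm q x ≤ (q : ℚ) ^ (-e)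

section

variable {q : ℕ} [hq : Fact q.Prime]

lemma q_pos : (0 : ℚ) < q := by exact_mod_cast hq.out.pos

lemma one_lt_q : (1 : ℚ) < q := by exact_mod_cast hq.out.one_lt

lemma I_zero (e : ℤ) : I q e 0 := by
  unfold I
  rw [padicNorm.zero]
  exact le_of_lt (zpow_pos q_pos _)

lemma I_add {e : ℤ} {x y : ℚ} (hx : I q e x) (hy : I q e y) : I q e (x + y) :=
  le_trans padicNorm.nonarchimedean (max_le hx hy)

omit hq in
lemma I_neg {e : ℤ} {x : ℚ} (hx : I q e x) : I q e (-x) := by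
  unfold I at *
  rwa [padicNorm.neg]

lemma I_sub {e : ℤ} {x y : ℚ} (hx : I q e x) (hy : I q e y) : I q e (x - y) := by
  rw [sub_eq_add_neg]
  exact I_add hx (I_neg hy)

lemma I_sum {ι : Type*} {e : ℤ} (s : Finset ι) (f : ι → ℚ) (h : ∀ i ∈ s, I q e (f i)) :
    I q e (∑ i ∈ s, f i) := by
  classical
  induction s using Finset.induction_on with
  | empty => simpa using I_zero e
  | insert a s ha ih =>
    rw [Finset.sum_insert ha]
    exact I_add (h a (Finset.mem_insert_self _ _))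
      (ih fun i hi => h i (Finset.mem_insert_of_mem hi))

lemma I_mul {a b : ℤ} {x y : ℚ} (hx : I q a x) (hy : I q b y) : I q (a + b) (x * y) := by
  unfold I at *
  rw [padicNorm.mul, neg_add, zpow_add₀ (ne_of_gt q_pos)]
  exact mul_le_mul hx hy (padicNorm.nonneg _) (le_of_lt (zpow_pos q_pos _))

lemma I_mono {a b : ℤ} {x : ℚ} (hab : a ≤ b) (hx : I q b x) : I q a x := by
  unfold I at *
  exact hx.trans (zpow_le_zpow_right₀ (le_of_lt one_lt_q) (by linarith))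

lemma I_int (z : ℤ) : I q 0 z := by
  unfold I
  simpa using padicNorm.of_int (p := q) z

lemma I_nat (n : ℕ) : I q 0 n := by
  have := I_int (q := q) (n : ℤ)
  simpa using this

lemma I_iff_dvd (n : ℕ) (z : ℤ) : I q n z ↔ ((q ^ n : ℕ) : ℤ) ∣ z := by
  unfold I
  exact (padicNorm.dvd_iff_norm_le (p := q) (n := n) (z := z)).symm

lemma I_pow_q (n : ℕ) : I q n ((q : ℚ) ^ n) := by
  have h := (I_iff_dvd (q := q) n ((q ^ n : ℕ) : ℤ)).2 (dvd_refl _)
  push_cast at h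
  exact h

lemma I_one_iff_dvd (z : ℤ) : I q 1 z ↔ (q : ℤ) ∣ z := by
  have := I_iff_dvd (q := q) 1 z
  simpa using this

lemma I_one_iff_num (x : ℚ) : I q 1 x ↔ (q : ℤ) ∣ x.num := by
  constructor
  · intro h
    have h2 : I q (1 + 0) (x * (x.den : ℚ)) := I_mul h (I_nat _)
    rw [Rat.mul_den_eq_num, add_zero] at h2
    exact (I_one_iff_dvd _).1 h2
  · intro h
    have hcop := x.reduced
    have hden : ¬ q ∣ x.den := by
      intro hd
      have h1 : q ∣ x.num.natAbs := Int.natCast_dvd.1 h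
      have := Nat.dvd_gcd h1 hd
      rw [hcop] at this
      exact hq.out.one_lt.ne' (Nat.dvd_one.1 this)
    have h1 : padicNorm q (x.den : ℚ) = 1 := (padicNorm.nat_eq_one_iff x.den).2 hden
    have h2 : I q 1 (x.num : ℚ) := (I_one_iff_dvd _).2 h
    rw [← Rat.mul_den_eq_num] at h2
    unfold I at *
    rwa [padicNorm.mul, h1, mul_one] at h2

/-- multiplication by an integer prime to `q` can be cancelled -/
lemma I_of_mul {e : ℤ} {z : ℤ} {x : ℚ} (hz : ¬ (q : ℤ) ∣ z) (h : I q e (z * x)) : I q e x := by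
  have h1 : padicNorm q (z : ℚ) = 1 := (padicNorm.int_eq_one_iff z).2 hz
  unfold I at *
  rwa [padicNorm.mul, h1, one_mul] at h

lemma I_inv_of_not_dvd {n : ℕ} (hn : ¬ q ∣ n) : I q 0 (1 / (n : ℚ)) := by
  have h1 : padicNorm q (n : ℚ) = 1 := (padicNorm.nat_eq_one_iff n).2 hn
  unfold I
  rw [padicNorm.div, h1]
  simp

lemma I_inv_q : I q (-1) (1 / (q : ℚ)) := by
  unfold I
  rw [padicNorm.div, padicNorm.padicNorm_p hq.out.one_lt]
  simp

/-- `q B_{2k}` is `q`-integral -/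
lemma bern_even (k : ℕ) : I q (-1) (bernoulli (2 * k)) := by
  obtain ⟨z, hz⟩ := Bernoulli.vonStaudt_clausen k
  have h : bernoulli (2 * k) = (z : ℚ) -
      ∑ p ∈ range (2 * k + 2) with p.Prime ∧ (p - 1) ∣ 2 * k, (1 : ℚ) / p := by
    rw [hz]; ring
  rw [h]
  refine I_sub (I_mono (by norm_num) (I_int z)) (I_sum _ _ fun p hp => ?_)
  have hpp : p.Prime := (Finset.mem_filter.1 hp).2.1
  by_cases hpq : p = q
  · subst hpq
    exact I_inv_q
  · refine I_mono (by norm_num) (I_inv_of_not_dvd (q := q) (n := p) ?_)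
    intro hd
    exact hpq ((Nat.prime_dvd_prime_iff_eq hq.out hpp).1 hd).symm

/-- if `(q - 1) ∣ 2k`, `k ≥ 1`, then `B_{2k}` is not `q`-integral -/
lemma bern_not_int (k : ℕ) (hk : 1 ≤ k) (hd : (q - 1) ∣ 2 * k) : ¬ I q 0 (bernoulli (2 * k)) := by
  intro h0
  obtain ⟨z, hz⟩ := Bernoulli.vonStaudt_clausen k
  have hmem : q ∈ (range (2 * k + 2)).filter (fun p => p.Prime ∧ (p - 1) ∣ 2 * k) := by
    refine Finset.mem_filter.2 ⟨Finset.mem_range.2 ?_, hq.out, hd⟩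
    have := Nat.le_of_dvd (by omega) hd
    omega
  rw [← Finset.add_sum_erase _ _ hmem] at hz
  have h : (1 : ℚ) / q = (z : ℚ) - bernoulli (2 * k) -
      ∑ p ∈ ((range (2 * k + 2)).filter (fun p => p.Prime ∧ (p - 1) ∣ 2 * k)).erase q,
        (1 : ℚ) / p := by
    rw [hz]; ring
  have h1 : I q 0 ((1 : ℚ) / q) := by
    rw [h]
    refine I_sub (I_sub (I_int z) h0) (I_sum _ _ fun p hp => ?_)
    have hpq : p ≠ q := Finset.ne_of_mem_erase hp
    have hpp : p.Prime := (Finset.mem_filter.1 (Finset.mem_of_mem_erase hp)).2.1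
    refine I_inv_of_not_dvd (q := q) (n := p) ?_
    intro hd'
    exact hpq ((Nat.prime_dvd_prime_iff_eq hq.out hpp).1 hd').symm
  unfold I at h1
  rw [padicNorm.div, padicNorm.padicNorm_p hq.out.one_lt] at h1
  simp at h1
  exact absurd h1 (not_le.2 hq.out.one_lt)

lemma bern_all (h5 : 5 ≤ q) (m : ℕ) : I q (-1) (bernoulli m) := by
  rcases Nat.even_or_odd m with ⟨k, hk⟩ | hodd
  · rw [hk, ← two_mul]
    exact bern_even k
  · by_cases h1 : m = 1
    · subst h1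
      rw [bernoulli_one]
      have h2 : I q 0 (1 / ((2 : ℕ) : ℚ)) := I_inv_of_not_dvd (by
        intro h
        have := Nat.le_of_dvd (by norm_num) h
        omega)
      have h3 := I_mono (a := -1) (by norm_num) (I_neg h2)
      convert h3 using 1
      norm_num
    · rw [bernoulli_eq_zero_of_odd hodd (by obtain ⟨r, hr⟩ := hodd; omega)]
      exact I_zero _

lemma bern_odd (h5 : 5 ≤ q) (m : ℕ) (hodd : Odd m) : I q 0 (bernoulli m) := by
  by_cases h1 : m = 1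
  · subst h1
    rw [bernoulli_one]
    have h2 : I q 0 (1 / ((2 : ℕ) : ℚ)) := I_inv_of_not_dvd (by
      intro h
      have := Nat.le_of_dvd (by norm_num) h
      omega)
    have h3 := I_neg h2
    convert h3 using 1
    norm_num
  · rw [bernoulli_eq_zero_of_odd hodd (by obtain ⟨r, hr⟩ := hodd; omega)]
    exact I_zero _

omit hq in
lemma pow_gt (h5 : 5 ≤ q) (d : ℕ) (hd : 2 ≤ d) : d + 1 < q ^ (d - 1) := by
  obtain ⟨e, rfl⟩ := Nat.exists_eq_add_of_le hd
  have : 2 + e - 1 = e + 1 := by omega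
  rw [this]
  clear hd this
  induction e with
  | zero => simpa using (by omega : 2 + 0 + 1 < q)
  | succ e ih =>
    calc 2 + (e + 1) + 1 ≤ (2 + e + 1) * 2 := by omega
      _ ≤ (2 + e + 1) * q := Nat.mul_le_mul_left _ (by omega)
      _ < q ^ (e + 1) * q := by
          exact Nat.mul_lt_mul_of_pos_right ih (by omega)
      _ = q ^ (e + 1 + 1) := by rw [pow_succ q (e + 1)]

/-- `v_q(1/(d+1)) ≥ -(d-2)` for `d ≥ 2` -/
lemma I_inv_succ (h5 : 5 ≤ q) (d : ℕ) (hd : 2 ≤ d) :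
    I q (-((d : ℤ) - 2)) (1 / ((d + 1 : ℕ) : ℚ)) := by
  by_contra hcon
  have hd0 : ((d + 1 : ℕ) : ℚ) ≠ 0 := by exact_mod_cast Nat.succ_ne_zero d
  have hpos : 0 < padicNorm q ((d + 1 : ℕ) : ℚ) := by
    rcases lt_or_eq_of_le (padicNorm.nonneg (p := q) ((d + 1 : ℕ) : ℚ)) with h | h
    · exact h
    · exact absurd (padicNorm.zero_of_padicNorm_eq_zero h.symm) hd0
  -- then `q ^ (d-1) ∣ d + 1`
  have hval : padicNorm q ((d + 1 : ℕ) : ℚ) ≤ (q : ℚ) ^ (-((d - 1 : ℕ) : ℤ)) := by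
    have h1 := hcon
    unfold I at h1
    rw [padicNorm.div, padicNorm.one, not_le] at h1
    -- `q^(d-2) < 1 / N`, and `N = q^(-v)`
    rw [padicNorm.eq_zpow_of_nonzero hd0] at h1 hpos ⊢
    rw [one_div, ← zpow_neg] at h1
    have h2 := (zpow_lt_zpow_iff_right₀ (one_lt_q (q := q))).1 h1
    apply (zpow_le_zpow_iff_right₀ (one_lt_q (q := q))).2
    have h3 : ((d - 1 : ℕ) : ℤ) = (d : ℤ) - 1 := by
      have : 1 ≤ d := by omega
      push_cast [Nat.cast_sub this]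
      ring
    rw [h3]
    linarith
  have hdv : ((q ^ (d - 1) : ℕ) : ℤ) ∣ ((d + 1 : ℕ) : ℤ) := by
    apply (padicNorm.dvd_iff_norm_le (p := q)).2
    simpa using hval
  have := Nat.le_of_dvd (Nat.succ_pos d) (Int.natCast_dvd_natCast.1 hdv)
  exact absurd this (not_le.2 (pow_gt h5 d hd))

/-- Claim 1 -/
lemma claim1 (h5 : 5 ≤ q) (k : ℕ) (hk : 1 ≤ k) :
    I q 2 ((∑ j ∈ range q, (j : ℚ) ^ (2 * k)) - q * bernoulli (2 * k)) := by
  rw [sum_range_pow, Finset.sum_range_succ]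
  have hlast : bernoulli (2 * k) * ((2 * k + 1).choose (2 * k) : ℚ) *
      (q : ℚ) ^ (2 * k + 1 - 2 * k) / ((2 * k : ℕ) + 1 : ℚ) = q * bernoulli (2 * k) := by
    have h1 : 2 * k + 1 - 2 * k = 1 := by omega
    rw [Nat.choose_succ_self_right, h1]
    have : ((2 * k : ℕ) : ℚ) + 1 ≠ 0 := by positivity
    push_cast
    push_cast at this
    field_simp
  rw [hlast, add_sub_cancel_right]
  refine I_sum _ _ fun i hi => ?_
  have hi' : i < 2 * k := Finset.mem_range.1 hi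
  obtain ⟨d, hd⟩ := Nat.exists_eq_add_of_lt hi'
  -- `2 k = i + d + 1`
  have hterm : bernoulli i * ((2 * k + 1).choose i : ℚ) * (q : ℚ) ^ (2 * k + 1 - i) /
      ((2 * k : ℕ) + 1 : ℚ) =
      bernoulli i * (((2 * k).choose i : ℚ) * ((q : ℚ) ^ (d + 2) *
        (1 / ((d + 1 + 1 : ℕ) : ℚ)))) := by
    have h1 : 2 * k + 1 - i = d + 2 := by omega
    have h2 := Nat.choose_mul_succ_eq (2 * k) i
    rw [h1] at h2 ⊢
    have h3 : ((2 * k).choose i : ℚ) * ((2 * k : ℕ) + 1) =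
        ((2 * k + 1).choose i : ℚ) * ((d + 1 + 1 : ℕ) : ℚ) := by
      have := congrArg (Nat.cast : ℕ → ℚ) h2
      push_cast at this ⊢
      linarith
    have h4 : ((2 * k : ℕ) : ℚ) + 1 ≠ 0 := by positivity
    have h5 : ((d + 1 + 1 : ℕ) : ℚ) ≠ 0 := by positivity
    rw [div_eq_iff h4]
    have h6 : bernoulli i * (((2 * k).choose i : ℚ) * ((q : ℚ) ^ (d + 2) *
        (1 / ((d + 1 + 1 : ℕ) : ℚ)))) * (((2 * k : ℕ) : ℚ) + 1) =
        bernoulli i * (q : ℚ) ^ (d + 2) * (1 / ((d + 1 + 1 : ℕ) : ℚ)) *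
        (((2 * k).choose i : ℚ) * (((2 * k : ℕ) : ℚ) + 1)) := by ring
    rw [h6, h3]
    field_simp
  rw [hterm]
  rcases Nat.eq_zero_or_pos d with hd0 | hdpos
  · -- `i = 2k - 1` odd
    subst hd0
    have hodd : Odd i := by
      rcases Nat.even_or_odd i with ⟨r, hr⟩ | h
      · omega
      · exact h
    have h2 : I q 0 (1 / ((0 + 1 + 1 : ℕ) : ℚ)) := I_inv_of_not_dvd (by
      intro h
      have := Nat.le_of_dvd (by norm_num) h
      omega)
    have := I_mul (bern_odd h5 i hodd) (I_mul (I_nat (q := q) ((2 * k).choose i))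
      (I_mul (I_pow_q (q := q) (0 + 2)) h2))
    exact I_mono (by norm_num) this
  · have := I_mul (bern_all h5 i) (I_mul (I_nat (q := q) ((2 * k).choose i))
      (I_mul (I_pow_q (q := q) (d + 2)) (I_inv_succ h5 (d + 1) (by omega))))
    refine I_mono ?_ this
    push_cast
    linarith

/-- multiplication by `a` permutes the residues -/
lemma sum_perm (a : ℕ) (ha : ¬ q ∣ a) (g : ℕ → ℤ) :
    ∑ j ∈ range q, g (j * a % q) = ∑ j ∈ range q, g j := by
  have hinj : ∀ x ∈ range q, ∀ y ∈ range q, x * a % q = y * a % q → x = y := by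
    intro x hx y hy hxy
    have hcop : Nat.Coprime q a := (Nat.Prime.coprime_iff_not_dvd hq.out).2 ha
    have h1 : x * a ≡ y * a [MOD q] := hxy
    have h2 : x ≡ y [MOD q] := Nat.ModEq.cancel_right_of_coprime hcop h1
    exact Nat.ModEq.eq_of_lt_of_lt h2 (Finset.mem_range.1 hx) (Finset.mem_range.1 hy)
  have himg : (range q).image (fun j => j * a % q) = range q := by
    apply Finset.eq_of_subset_of_card_le
    · intro y hy
      obtain ⟨x, _, rfl⟩ := Finset.mem_image.1 hy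
      exact Finset.mem_range.2 (Nat.mod_lt _ hq.out.pos)
    · rw [Finset.card_image_of_injOn]
      intro x hx y hy hxy
      exact hinj x (by simpa using hx) y (by simpa using hy) hxy
  conv_rhs => rw [← himg]
  rw [Finset.sum_image]
  intro x hx y hy hxy
  exact hinj x (by simpa using hx) y (by simpa using hy) hxy

/-- Voronoi's sum -/
def T (q n a : ℕ) : ℤ := ∑ j ∈ range q, ((j * a : ℕ) : ℤ) ^ (n - 1) * ((j * a / q : ℕ) : ℤ)

/-- Claim 2 -/
lemma claim2 (n a : ℕ) (ha : ¬ q ∣ a) :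
    ((q : ℤ) ^ 2) ∣ (((a : ℤ) ^ n - 1) * ∑ j ∈ range q, (j : ℤ) ^ n) - n * q * T q n a := by
  have h1 : ∑ j ∈ range q, (((j * a % q : ℕ) : ℤ)) ^ n = ∑ j ∈ range q, (j : ℤ) ^ n :=
    sum_perm a ha (fun j => (j : ℤ) ^ n)
  have h2 : ((a : ℤ) ^ n) * ∑ j ∈ range q, (j : ℤ) ^ n =
      ∑ j ∈ range q, (((j * a : ℕ) : ℤ)) ^ n := by
    rw [Finset.mul_sum]
    refine Finset.sum_congr rfl fun j _ => ?_
    push_cast
    ring
  have h3 : (((a : ℤ) ^ n - 1) * ∑ j ∈ range q, (j : ℤ) ^ n) - n * q * T q n a =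
      ∑ j ∈ range q, ((((j * a : ℕ) : ℤ)) ^ n - (((j * a % q : ℕ) : ℤ)) ^ n -
        n * q * (((j * a : ℕ) : ℤ) ^ (n - 1) * ((j * a / q : ℕ) : ℤ))) := by
    rw [sub_mul, one_mul, h2, ← h1, T, Finset.mul_sum, ← Finset.sum_sub_distrib,
      ← Finset.sum_sub_distrib]
  rw [h3]
  refine Finset.dvd_sum fun j _ => ?_
  have h4 : ((j * a % q : ℕ) : ℤ) = ((j * a : ℕ) : ℤ) + (-((q : ℤ) * ((j * a / q : ℕ) : ℤ))) := by
    have := Nat.mod_add_div (j * a) q
    have h5 : (((j * a % q : ℕ) : ℤ)) + (q : ℤ) * ((j * a / q : ℕ) : ℤ) = ((j * a : ℕ) : ℤ) := by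
      exact_mod_cast this
    linarith
  obtain ⟨c, hc⟩ := Polynomial.powAddExpansion ((j * a : ℕ) : ℤ)
    (-((q : ℤ) * ((j * a / q : ℕ) : ℤ))) n
  rw [h4, hc]
  refine ⟨-(c * ((j * a / q : ℕ) : ℤ) ^ 2), ?_⟩
  ring

/-- Claim 3: `(a^n - 1) B_n ≡ n T_n(a)` mod `q` -/
lemma claim3 (h5 : 5 ≤ q) (k a : ℕ) (hk : 1 ≤ k) (ha : ¬ q ∣ a) :
    I q 1 ((((a : ℤ) ^ (2 * k) - 1 : ℤ) : ℚ) * bernoulli (2 * k) -
      (((2 * k : ℕ) * T q (2 * k) a : ℤ) : ℚ)) := by
  have h1 := claim1 (q := q) h5 k hk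
  have h2 := claim2 (q := q) (2 * k) a ha
  have h3 : I q 2 (((((a : ℤ) ^ (2 * k) - 1) * ∑ j ∈ range q, (j : ℤ) ^ (2 * k)) -
      ((2 * k : ℕ) : ℤ) * q * T q (2 * k) a : ℤ) : ℚ) := by
    apply (I_iff_dvd (q := q) 2 _).2
    push_cast at h2 ⊢
    exact h2
  have h4 := I_mul (I_int (q := q) ((a : ℤ) ^ (2 * k) - 1)) h1
  have h5' : I q 2 ((q : ℚ) * ((((a : ℤ) ^ (2 * k) - 1 : ℤ) : ℚ) * bernoulli (2 * k) -
      (((2 * k : ℕ) * T q (2 * k) a : ℤ) : ℚ))) := by
    have h6 := I_sub h3 (by simpa using h4)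
    convert h6 using 1
    push_cast
    ring
  have h7 := I_mul (I_inv_q (q := q)) h5'
  have hq0 : (q : ℚ) ≠ 0 := ne_of_gt q_pos
  have h8 : (1 / (q : ℚ)) * ((q : ℚ) * ((((a : ℤ) ^ (2 * k) - 1 : ℤ) : ℚ) * bernoulli (2 * k) -
      (((2 * k : ℕ) * T q (2 * k) a : ℤ) : ℚ))) = ((((a : ℤ) ^ (2 * k) - 1 : ℤ) : ℚ) *
      bernoulli (2 * k) - (((2 * k : ℕ) * T q (2 * k) a : ℤ) : ℚ)) := by
    rw [← mul_assoc, one_div_mul_cancel hq0, one_mul]
  rw [h8] at h7
  exact I_mono (by norm_num) h7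

lemma fermat (x : ℕ) (hx : ¬ q ∣ x) (m t : ℕ) :
    (q : ℤ) ∣ ((x : ℤ) ^ (m + (q - 1) * t)) - (x : ℤ) ^ m := by
  rw [← ZMod.intCast_zmod_eq_zero_iff_dvd] 
  push_cast
  have h0 : (x : ZMod q) ≠ 0 := by
    intro h
    exact hx ((ZMod.natCast_eq_zero_iff x q).1 h)
  rw [pow_add, pow_mul, ZMod.pow_card_sub_one_eq_one h0, one_pow, mul_one, sub_self]

/-- Claim 4 -/
lemma claim4 (m t a : ℕ) (hm : 1 ≤ m) (ha : ¬ q ∣ a) :
    (q : ℤ) ∣ T q (m + (q - 1) * t) a - T q m a := by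
  unfold T
  rw [← Finset.sum_sub_distrib]
  refine Finset.dvd_sum fun j hj => ?_
  rcases Nat.eq_zero_or_pos j with rfl | hj0
  · simp
  · rw [← sub_mul]
    apply Dvd.dvd.mul_right
    have hja : ¬ q ∣ j * a := by
      intro h
      rcases (Nat.Prime.dvd_mul hq.out).1 h with h1 | h1
      · exact absurd (Nat.le_of_dvd hj0 h1) (not_le.2 (Finset.mem_range.1 hj))
      · exact ha h1
    have h1 : m + (q - 1) * t - 1 = (m - 1) + (q - 1) * t := by omega
    rw [h1]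
    exact fermat (j * a) hja (m - 1) t

lemma exists_prim (n : ℕ) (hn : ¬ (q - 1) ∣ n) :
    ∃ a : ℕ, ¬ q ∣ a ∧ ¬ (q : ℤ) ∣ (a : ℤ) ^ n - 1 := by
  obtain ⟨g, hg⟩ := IsCyclic.exists_ofOrder_eq_natCard (α := (ZMod q)ˣ)
  have hcard : Nat.card (ZMod q)ˣ = q - 1 := by
    rw [Nat.card_eq_fintype_card, ZMod.card_units]
  refine ⟨(g : ZMod q).val, ?_, ?_⟩
  · intro h
    have h1 := (ZMod.natCast_eq_zero_iff (g : ZMod q).val q).2 h
    rw [ZMod.natCast_zmod_val] at h1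
    exact g.ne_zero h1
  · intro h
    have h1 := (ZMod.intCast_zmod_eq_zero_iff_dvd _ q).2 h
    push_cast at h1
    rw [ZMod.natCast_zmod_val] at h1
    have h2 : g ^ n = 1 := by
      ext
      push_cast
      exact sub_eq_zero.1 h1
    have h3 := orderOf_dvd_of_pow_eq_one h2
    rw [hg, hcard] at h3
    exact hn h3

end

end RowA

open RowA in
theorem kummer (q : ℕ) (hq : q.Prime) (h5 : 5 ≤ q) (k : ℕ) (hk : 1 ≤ k) (hqk : ¬ q ∣ k)
    (hdiv : (q : ℤ) ∣ (bernoulli (2 * k)).num) :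
    ∃ l : ℕ, 1 ≤ l ∧ l ≤ (q - 3) / 2 ∧ k ≡ l [MOD ((q - 1) / 2)] ∧
      (q : ℤ) ∣ (bernoulli (2 * l)).num := by
  have : Fact q.Prime := ⟨hq⟩
  have hodd : q % 2 = 1 := by
    rcases hq.eq_two_or_odd with h | h
    · omega
    · exact h
  obtain ⟨r, hr⟩ : ∃ r, q = 2 * r + 1 := ⟨q / 2, by omega⟩
  have hr2 : (q - 1) / 2 = r := by omega
  have hr3 : (q - 3) / 2 = r - 1 := by omega
  have hq1 : q - 1 = 2 * r := by omega
  have hrpos : 2 ≤ r := by omega
  have hB : I q 1 (bernoulli (2 * k)) := (I_one_iff_num _).2 hdiv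
  have hnd : ¬ (q - 1) ∣ 2 * k := fun h =>
    bern_not_int k hk h (I_mono (by norm_num) hB)
  have hndr : ¬ r ∣ k := by
    intro h
    apply hnd
    rw [hq1]
    exact Nat.mul_dvd_mul_left 2 h
  set l := k % r with hl
  have hl0 : l ≠ 0 := fun h => hndr (Nat.dvd_of_mod_eq_zero h)
  have hlr : l < r := Nat.mod_lt _ (by omega)
  have hkl : k = l + r * (k / r) := (Nat.mod_add_div k r).symm
  have h2k : 2 * k = 2 * l + (q - 1) * (k / r) := by
    rw [hq1]
    conv_lhs => rw [hkl]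
    ring
  refine ⟨l, by omega, by omega, ?_, ?_⟩
  · rw [hr2]
    exact (Nat.mod_modEq k r).symm
  obtain ⟨a, ha, han⟩ := exists_prim (q := q) (2 * k) hnd
  have h3 := claim3 (q := q) h5 k a hk ha
  have h4 : I q 1 ((((2 * k : ℕ) * T q (2 * k) a : ℤ)) : ℚ) := by
    have h6 : I q 1 ((((a : ℤ) ^ (2 * k) - 1 : ℤ) : ℚ) * bernoulli (2 * k)) := by
      have := I_mul (I_int (q := q) ((a : ℤ) ^ (2 * k) - 1)) hB
      simpa using this
    have h7 := I_sub h6 h3
    rw [sub_sub_cancel] at h7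
    exact h7
  have h5' : (q : ℤ) ∣ (2 * k : ℕ) * T q (2 * k) a := (I_one_iff_dvd _).1 h4
  have hqp : Prime (q : ℤ) := Nat.prime_iff_prime_int.1 hq
  have h6 : (q : ℤ) ∣ T q (2 * k) a := by
    rcases hqp.dvd_or_dvd h5' with h | h
    · exfalso
      have h7 : q ∣ 2 * k := Int.natCast_dvd_natCast.1 h
      rcases (Nat.Prime.dvd_mul hq).1 h7 with h8 | h8
      · have := Nat.le_of_dvd (by norm_num) h8
        omega
      · exact hqk h8
    · exact h
  have h7 : (q : ℤ) ∣ T q (2 * l) a := by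
    have h8 := claim4 (q := q) (2 * l) (k / r) a (by omega) ha
    rw [← h2k] at h8
    have := dvd_sub h6 h8
    rwa [sub_sub_cancel] at this
  have h8 := claim3 (q := q) h5 l a (by omega) ha
  have h9 : I q 1 ((((2 * l : ℕ) * T q (2 * l) a : ℤ)) : ℚ) :=
    (I_one_iff_dvd _).2 (Dvd.dvd.mul_left h7 _)
  have h10 : I q 1 ((((a : ℤ) ^ (2 * l) - 1 : ℤ) : ℚ) * bernoulli (2 * l)) := by
    have := I_add h8 h9
    rwa [sub_add_cancel] at this
  have h11 : ¬ (q : ℤ) ∣ (a : ℤ) ^ (2 * l) - 1 := by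
    intro h
    apply han
    have h12 := fermat (q := q) a ha (2 * l) (k / r)
    rw [← h2k] at h12
    have := dvd_add h12 h
    rwa [sub_add_sub_cancel] at this
  exact (I_one_iff_num _).1 (I_of_mul h11 h10)

end Pool.Agent.IrrPairs
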