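import Pool.Agent.IrrPairs.Defs

set_option autoImplicit false

/-!
Arithmetic of the Bernoulli numbers: denominators (von Staudt - Clausen), size of the numerators,
bounds for the `q`-adic valuation.
-/

namespace Pool.Agent.IrrPairs

open Finset

namespace RowB

/-- The primes of the von Staudt - Clausen theorem. -/
def pr (k : ℕ) : Finset ℕ := (range (2 * k + 2)).filter fun p => p.Prime ∧ (p - 1) ∣ 2 * k

theorem mem_pr {k p : ℕ} : p ∈ pr k ↔ p < 2 * k + 2 ∧ p.Prime ∧ (p - 1) ∣ 2 * k := by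
  simp [pr, mem_filter]

theorem vsc (k : ℕ) : ∃ z : ℤ, bernoulli (2 * k) = z - ∑ p ∈ pr k, (1 : ℚ) / p := by
  obtain ⟨z, hz⟩ := Bernoulli.vonStaudt_clausen k
  refine ⟨z, ?_⟩
  rw [hz]
  simp [pr]

theorem prod_mul_sum (S : Finset ℕ) (hS : ∀ p ∈ S, p ≠ 0) :
    ∃ z : ℤ, ((∏ p ∈ S, p : ℕ) : ℚ) * ∑ p ∈ S, (1 : ℚ) / p = z := by
  refine ⟨∑ p ∈ S, ((∏ r ∈ S.erase p, r : ℕ) : ℤ), ?_⟩
  rw [mul_sum]
  push_cast
  refine sum_congr rfl fun p hp => ?_
  rw [← mul_prod_erase S (fun r => (r : ℚ)) hp]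
  have : (p : ℚ) ≠ 0 := by exact_mod_cast hS p hp
  field_simp

theorem den_dvd_prod (k : ℕ) : (bernoulli (2 * k)).den ∣ ∏ p ∈ pr k, p := by
  obtain ⟨z, hz⟩ := vsc k
  obtain ⟨y, hy⟩ := prod_mul_sum (pr k) fun p hp => (mem_pr.1 hp).2.1.ne_zero
  have h1 : ((∏ p ∈ pr k, p : ℕ) : ℚ) * bernoulli (2 * k) =
      (((∏ p ∈ pr k, p : ℕ) : ℤ) * z - y : ℤ) := by
    rw [hz, mul_sub, hy]
    push_cast
    ring
  have h2 : ((∏ p ∈ pr k, p : ℕ) : ℤ) * (bernoulli (2 * k)).num =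
      (((∏ p ∈ pr k, p : ℕ) : ℤ) * z - y) * (bernoulli (2 * k)).den := by
    have h3 : (bernoulli (2 * k)) * ((bernoulli (2 * k)).den : ℚ) = (bernoulli (2 * k)).num :=
      Rat.mul_den_eq_num _
    have h4 : (((∏ p ∈ pr k, p : ℕ) : ℤ) : ℚ) * ((bernoulli (2 * k)).num : ℚ) =
        ((((∏ p ∈ pr k, p : ℕ) : ℤ) * z - y : ℤ) : ℚ) * ((bernoulli (2 * k)).den : ℚ) := by
      rw [← h1, ← h3]
      push_cast
      ring
    exact_mod_cast h4
  have h5 : ((bernoulli (2 * k)).den : ℤ) ∣ ((∏ p ∈ pr k, p : ℕ) : ℤ) * (bernoulli (2 * k)).num :=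
    ⟨_, h2.trans (mul_comm _ _)⟩
  have h6 : IsCoprime ((bernoulli (2 * k)).den : ℤ) (bernoulli (2 * k)).num := by
    rw [Int.isCoprime_iff_gcd_eq_one]
    have := (bernoulli (2 * k)).reduced
    rw [Nat.Coprime] at this
    rw [Int.gcd, Int.natAbs_natCast, Nat.gcd_comm]
    exact this
  exact Int.natCast_dvd_natCast.1 (h6.dvd_of_dvd_mul_right h5)

end RowB

open RowB

theorem dvd_of_prime_dvd_den (k : ℕ) (hk : 1 ≤ k) (q : ℕ) (hq : q.Prime)
    (h : q ∣ (bernoulli (2 * k)).den) : (q - 1) ∣ 2 * k := by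
  have h1 := h.trans (den_dvd_prod k)
  obtain ⟨p, hp, hqp⟩ := (Prime.dvd_finset_prod_iff hq.prime _).1 h1
  have hp' := mem_pr.1 hp
  rw [(Nat.prime_dvd_prime_iff_eq hq hp'.2.1).1 hqp]
  exact hp'.2.2

theorem prime_dvd_den (k : ℕ) (hk : 1 ≤ k) (q : ℕ) (hq : q.Prime)
    (h : (q - 1) ∣ 2 * k) : q ∣ (bernoulli (2 * k)).den := by
  have hmem : q ∈ pr k := by
    rw [mem_pr]
    refine ⟨?_, hq, h⟩
    have := Nat.le_of_dvd (by omega) h
    omega
  obtain ⟨z, hz⟩ := vsc k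
  obtain ⟨y, hy⟩ := prod_mul_sum ((pr k).erase q) fun p hp =>
    (mem_pr.1 (mem_of_mem_erase hp)).2.1.ne_zero
  set D : ℕ := ∏ p ∈ (pr k).erase q, p with hD
  have hq0 : (q : ℚ) ≠ 0 := by exact_mod_cast hq.ne_zero
  have h3 : (bernoulli (2 * k)) * ((bernoulli (2 * k)).den : ℚ) = (bernoulli (2 * k)).num :=
    Rat.mul_den_eq_num _
  have h4 : ((D : ℤ) * (bernoulli (2 * k)).den : ℤ) =
      q * (((D : ℤ) * z - y) * (bernoulli (2 * k)).den - D * (bernoulli (2 * k)).num) := by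
    have h5 : (D : ℚ) * (bernoulli (2 * k)).den =
        q * (((D : ℚ) * z - y) * (bernoulli (2 * k)).den - D * (bernoulli (2 * k)).num) := by
      rw [← h3, ← hy]
      have h6 : bernoulli (2 * k) = z - (1 / (q : ℚ) + ∑ p ∈ (pr k).erase q, (1 : ℚ) / p) := by
        rw [hz, add_sum_erase (pr k) (fun p => (1 : ℚ) / p) hmem]
      set s : ℚ := ∑ p ∈ (pr k).erase q, (1 : ℚ) / p with hs
      set d : ℚ := ((bernoulli (2 * k)).den : ℚ) with hd
      rw [h6]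
      field_simp
      ring
    exact_mod_cast h5
  have h7 : (q : ℤ) ∣ (D : ℤ) * (bernoulli (2 * k)).den := ⟨_, h4⟩
  have h8 : q ∣ D * (bernoulli (2 * k)).den := by exact_mod_cast h7
  rcases hq.dvd_mul.1 h8 with h9 | h9
  · exfalso
    obtain ⟨p, hp, hqp⟩ := (Prime.dvd_finset_prod_iff hq.prime _).1 h9
    have hp' := mem_erase.1 hp
    exact hp'.1 ((Nat.prime_dvd_prime_iff_eq hq (mem_pr.1 hp'.2).2.1).1 hqp).symm
  · exact h9

theorem den_le (k : ℕ) (hk : 1 ≤ k) : (bernoulli (2 * k)).den ≤ 4 ^ (2 * k + 1) := by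
  have h1 : ∏ p ∈ pr k, p ∣ primorial (2 * k + 1) := by
    rw [primorial]
    apply prod_dvd_prod_of_subset
    intro p hp
    have := mem_pr.1 hp
    exact mem_filter.2 ⟨mem_range.2 (by omega), this.2.1⟩
  exact (Nat.le_of_dvd (primorial_pos _) ((den_dvd_prod k).trans h1)).trans
    (primorial_le_four_pow _)

namespace RowB

theorem zeta_eq {k : ℕ} (hk : 1 ≤ k) :
    HasSum (fun n : ℕ => 1 / (n : ℝ) ^ (2 * k))
      ((-1 : ℝ) ^ (k + 1) * (2 : ℝ) ^ (2 * k - 1) * Real.pi ^ (2 * k) *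
        bernoulli (2 * k) / (2 * k).factorial) := hasSum_zeta_nat (by omega)

theorem one_le_zeta {k : ℕ} (hk : 1 ≤ k) :
    (1 : ℝ) ≤ (-1 : ℝ) ^ (k + 1) * (2 : ℝ) ^ (2 * k - 1) * Real.pi ^ (2 * k) *
        bernoulli (2 * k) / (2 * k).factorial := by
  have h := (zeta_eq hk).summable.le_tsum 1 fun j _ => by positivity
  rw [(zeta_eq hk).tsum_eq] at h
  simpa using h

theorem zeta_le {k : ℕ} (hk : 1 ≤ k) :
    (-1 : ℝ) ^ (k + 1) * (2 : ℝ) ^ (2 * k - 1) * Real.pi ^ (2 * k) *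
        bernoulli (2 * k) / (2 * k).factorial ≤ 2 := by
  have h2 : HasSum (fun n : ℕ => 1 / (n : ℝ) ^ 2) (Real.pi ^ 2 / 6) := hasSum_zeta_two
  have h3 : (-1 : ℝ) ^ (k + 1) * (2 : ℝ) ^ (2 * k - 1) * Real.pi ^ (2 * k) *
        bernoulli (2 * k) / (2 * k).factorial ≤ Real.pi ^ 2 / 6 := by
    apply hasSum_le _ (zeta_eq hk) h2
    intro n
    rcases Nat.eq_zero_or_pos n with hn | hn
    · subst hn
      have : 2 * k ≠ 0 := by omega
      simp [this]
    · have h1 : (1 : ℝ) ≤ n := by exact_mod_cast hn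
      apply one_div_le_one_div_of_le (by positivity)
      exact pow_le_pow_right₀ h1 (by omega)
  have h4 : Real.pi ^ 2 ≤ 12 := by
    have := Real.pi_lt_d2
    have := Real.pi_pos
    nlinarith
  linarith

theorem abs_bernoulli {k : ℕ} (hk : 1 ≤ k) :
    |(bernoulli (2 * k) : ℝ)| * 4 ^ (2 * k) ≤ 4 * (2 * k).factorial := by
  have h1 := zeta_le hk
  have h0 := one_le_zeta hk
  have hf : (0 : ℝ) < (2 * k).factorial := by exact_mod_cast Nat.factorial_pos _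
  have h2 : |(-1 : ℝ) ^ (k + 1) * (2 : ℝ) ^ (2 * k - 1) * Real.pi ^ (2 * k) *
        bernoulli (2 * k) / (2 * k).factorial| ≤ 2 := by
    rw [abs_of_nonneg (by linarith)]
    exact h1
  rw [abs_div, abs_mul, abs_mul, abs_mul, abs_pow, abs_neg, abs_one, one_pow, one_mul,
    abs_of_pos hf, div_le_iff₀ hf, abs_of_pos (by positivity : (0 : ℝ) < 2 ^ (2 * k - 1)),
    abs_of_pos (by positivity : (0 : ℝ) < Real.pi ^ (2 * k))] at h2
  have h3 : (2 : ℝ) ^ (2 * k) ≤ Real.pi ^ (2 * k) := by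
    apply pow_le_pow_left₀ (by norm_num)
    have := Real.pi_gt_three
    linarith
  have h4 : (4 : ℝ) ^ (2 * k) = 2 * 2 ^ (2 * k - 1) * 2 ^ (2 * k) := by
    rw [← pow_succ', show 2 * k - 1 + 1 = 2 * k by omega, ← mul_pow]
    norm_num
  have h5 : (2 : ℝ) ^ (2 * k - 1) * 2 ^ (2 * k) * |(bernoulli (2 * k) : ℝ)| ≤
      2 ^ (2 * k - 1) * Real.pi ^ (2 * k) * |(bernoulli (2 * k) : ℝ)| :=
    mul_le_mul_of_nonneg_right (mul_le_mul_of_nonneg_left h3 (by positivity)) (abs_nonneg _)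
  rw [h4]
  nlinarith

end RowB

theorem bernoulli_two_mul_ne_zero (k : ℕ) : bernoulli (2 * k) ≠ 0 := by
  rcases Nat.eq_zero_or_pos k with hk | hk
  · subst hk
    simp
  · intro h0
    have h := one_le_zeta hk
    rw [h0] at h
    simp at h
    linarith

theorem num_le (k : ℕ) (hk : 1 ≤ k) :
    (bernoulli (2 * k)).num.natAbs ≤ 16 * (2 * k).factorial := by
  have h1 := abs_bernoulli hk
  have h2 := den_le k hk
  have h3 : ((bernoulli (2 * k)).num.natAbs : ℝ) =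
      |(bernoulli (2 * k) : ℝ)| * ((bernoulli (2 * k)).den : ℝ) := by
    have h4 : (bernoulli (2 * k)) * ((bernoulli (2 * k)).den : ℚ) = (bernoulli (2 * k)).num :=
      Rat.mul_den_eq_num _
    have h5 : ((bernoulli (2 * k) : ℚ) : ℝ) * ((bernoulli (2 * k)).den : ℝ) =
        ((bernoulli (2 * k)).num : ℝ) := by exact_mod_cast h4
    rw [Nat.cast_natAbs, Int.cast_abs, ← h5, abs_mul, Nat.abs_cast]
  have h6 : ((bernoulli (2 * k)).den : ℝ) ≤ 4 ^ (2 * k + 1) := by exact_mod_cast h2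
  have h7 : ((bernoulli (2 * k)).num.natAbs : ℝ) ≤ 16 * (2 * k).factorial := by
    rw [h3]
    calc |(bernoulli (2 * k) : ℝ)| * ((bernoulli (2 * k)).den : ℝ)
        ≤ |(bernoulli (2 * k) : ℝ)| * 4 ^ (2 * k + 1) :=
          mul_le_mul_of_nonneg_left h6 (abs_nonneg _)
      _ = 4 * (|(bernoulli (2 * k) : ℝ)| * 4 ^ (2 * k)) := by ring
      _ ≤ 4 * (4 * (2 * k).factorial) := by linarith
      _ = 16 * (2 * k).factorial := by ring
  exact_mod_cast h7

theorem abs_padicValRat_bernoulli_le (q : ℕ) (hq : q.Prime) (k : ℕ) (hk : 1 ≤ k) :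
    |padicValRat q (bernoulli (2 * k))| ≤ ((2 * k + 2) ^ 2 : ℕ) := by
  haveI : Fact q.Prime := ⟨hq⟩
  have key : ∀ m : ℕ, m ≠ 0 → m ≤ 2 ^ ((2 * k + 2) ^ 2) → padicValNat q m ≤ (2 * k + 2) ^ 2 := by
    intro m hm0 hm
    have h1 : q ^ padicValNat q m ∣ m := pow_padicValNat_dvd
    have h2 : 2 ^ padicValNat q m ≤ 2 ^ ((2 * k + 2) ^ 2) :=
      (Nat.pow_le_pow_left hq.two_le _).trans ((Nat.le_of_dvd (Nat.pos_of_ne_zero hm0) h1).trans hm)
    exact (Nat.pow_le_pow_iff_right (by norm_num)).1 h2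
  have hden : padicValNat q (bernoulli (2 * k)).den ≤ (2 * k + 2) ^ 2 := by
    apply key _ (bernoulli (2 * k)).den_nz
    refine (den_le k hk).trans ?_
    rw [show (4 : ℕ) = 2 ^ 2 by norm_num, ← pow_mul]
    apply Nat.pow_le_pow_right (by norm_num)
    nlinarith
  have hnum : padicValNat q (bernoulli (2 * k)).num.natAbs ≤ (2 * k + 2) ^ 2 := by
    apply key
    · rw [Ne, Int.natAbs_eq_zero, Rat.num_eq_zero]
      exact bernoulli_two_mul_ne_zero k
    · refine (num_le k hk).trans ?_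
      have h1 : (2 * k).factorial ≤ 2 ^ ((2 * k) * (2 * k)) := by
        calc (2 * k).factorial ≤ (2 * k) ^ (2 * k) := Nat.factorial_le_pow _
          _ ≤ (2 ^ (2 * k)) ^ (2 * k) := Nat.pow_le_pow_left (Nat.lt_two_pow_self).le _
          _ = 2 ^ ((2 * k) * (2 * k)) := by rw [← pow_mul]
      calc 16 * (2 * k).factorial ≤ 16 * 2 ^ ((2 * k) * (2 * k)) := Nat.mul_le_mul_left _ h1
        _ = 2 ^ (4 + (2 * k) * (2 * k)) := by rw [pow_add]; norm_num
        _ ≤ 2 ^ ((2 * k + 2) ^ 2) := by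
          apply Nat.pow_le_pow_right (by norm_num)
          nlinarith
  rw [padicValRat, padicValInt, abs_le]
  constructor
  · have : (0 : ℤ) ≤ padicValNat q (bernoulli (2 * k)).num.natAbs := Int.natCast_nonneg _
    have h2 : ((padicValNat q (bernoulli (2 * k)).den : ℕ) : ℤ) ≤ (((2 * k + 2) ^ 2 : ℕ) : ℤ) := by
      exact_mod_cast hden
    linarith
  · have : (0 : ℤ) ≤ padicValNat q (bernoulli (2 * k)).den := Int.natCast_nonneg _
    have h2 : ((padicValNat q (bernoulli (2 * k)).num.natAbs : ℕ) : ℤ) ≤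
        (((2 * k + 2) ^ 2 : ℕ) : ℤ) := by
      exact_mod_cast hnum
    linarith

end Pool.Agent.IrrPairs
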