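import Pool.Agent.IrrPairs.Defs

set_option autoImplicit false

/-!
Row C: multiplicative independence of the numbers `ζ(2k) / ζ(2k+2h)`.
-/

namespace Pool.Agent.IrrPairs

open Finset Filter
open scoped Nat Real

namespace RowC

/-- The value `ζ(2k)`. -/
noncomputable def zt (k : ℕ) : ℝ := ∑' n : ℕ, 1 / (n : ℝ) ^ (2 * k)

theorem summable (k : ℕ) (hk : 1 ≤ k) : Summable fun n : ℕ => 1 / (n : ℝ) ^ (2 * k) :=
  (hasSum_zeta_nat (by omega)).summable

theorem zt_one : zt 1 = π ^ 2 / 6 := by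
  unfold zt
  rw [mul_one]
  exact hasSum_zeta_two.tsum_eq

theorem one_lt_zt (k : ℕ) (hk : 1 ≤ k) : 1 < zt k := by
  have h := (summable k hk).sum_le_tsum {1, 2} (fun n _ => by positivity)
  rw [Finset.sum_insert (by simp), Finset.sum_singleton] at h
  have h2 : (0 : ℝ) < 1 / ((2 : ℕ) : ℝ) ^ (2 * k) := by positivity
  have h3 : (1 : ℝ) / ((1 : ℕ) : ℝ) ^ (2 * k) = 1 := by simp
  rw [h3] at h
  unfold zt
  linarith

theorem zt_succ (k : ℕ) (hk : 1 ≤ k) : zt (k + 1) - 1 ≤ (zt k - 1) / 4 := by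
  have hs := (summable k hk).sub ((summable (k + 1) (by omega)).mul_left 4)
  have h := hs.sum_le_tsum {1} (fun n hn => by
    rw [Finset.mem_singleton] at hn
    rcases Nat.eq_zero_or_pos n with rfl | h0
    · have h1 : (2 * k) ≠ 0 := by omega
      have h2 : (2 * (k + 1)) ≠ 0 := by omega
      simp [zero_pow h1, zero_pow h2]
    · have h2 : (2 : ℝ) ≤ n := by exact_mod_cast (by omega : 2 ≤ n)
      have h3 : (0 : ℝ) < (n : ℝ) ^ (2 * k) := by positivity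
      have h4 : (n : ℝ) ^ (2 * (k + 1)) = (n : ℝ) ^ (2 * k) * (n : ℝ) ^ 2 := by ring
      have h5 : (4 : ℝ) ≤ (n : ℝ) ^ 2 := by nlinarith
      rw [h4, sub_nonneg, mul_one_div, div_le_div_iff₀ (by positivity) h3]
      linarith [mul_le_mul_of_nonneg_left h5 h3.le])
  rw [Finset.sum_singleton, (summable k hk).tsum_sub ((summable (k + 1) (by omega)).mul_left 4),
    tsum_mul_left] at h
  have h1 : (1 : ℝ) / ((1 : ℕ) : ℝ) ^ (2 * k) - 4 * (1 / ((1 : ℕ) : ℝ) ^ (2 * (k + 1))) = -3 := by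
    simp
    norm_num
  rw [h1] at h
  change -3 ≤ zt k - 4 * zt (k + 1) at h
  linarith

theorem zt_le (k : ℕ) (hk : 1 ≤ k) : zt k - 1 ≤ 0.645 := by
  induction k, hk using Nat.le_induction with
  | base =>
    rw [zt_one]
    have h1 := Real.pi_lt_d4
    have h2 := Real.pi_pos
    nlinarith
  | succ k hk ih =>
    have h1 := zt_succ k hk
    have h2 := one_lt_zt k hk
    linarith

/-- the logarithm of `ζ(2k)` -/
theorem log_zt_le (k : ℕ) (hk : 1 ≤ k) : Real.log (zt k) ≤ zt k - 1 :=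
  Real.log_le_sub_one_of_pos (by linarith [one_lt_zt k hk])

theorem lt_log_zt (k : ℕ) (hk : 1 ≤ k) : 7 / 12 * (zt k - 1) < Real.log (zt k) := by
  have h1 := one_lt_zt k hk
  have h2 := zt_le k hk
  have h3 := Real.one_sub_inv_le_log_of_pos (show 0 < zt k by linarith)
  refine lt_of_lt_of_le ?_ h3
  have h4 : zt k * (zt k)⁻¹ = 1 := mul_inv_cancel₀ (by linarith)
  have h5 : 0 < (zt k)⁻¹ := inv_pos.2 (by linarith)
  have h6 : 1 - (zt k)⁻¹ = (zt k - 1) * (zt k)⁻¹ := by rw [sub_mul, h4, one_mul]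
  rw [h6, mul_comm]
  refine mul_lt_mul_of_pos_left ?_ (by linarith)
  rw [lt_inv_comm₀ (by norm_num) (by linarith)]
  norm_num
  linarith

/-- sums of `ζ(2k) - 1` over integers above `k₀` -/
theorem sum_Ioc_le (k₀ : ℕ) (M : ℕ) (hM : k₀ ≤ M) :
    ∑ k ∈ Finset.Ioc k₀ M, (zt k - 1) ≤ 4 / 3 * ((zt (k₀ + 1) - 1) - (zt (M + 1) - 1)) := by
  induction M, hM using Nat.le_induction with
  | base => simp
  | succ M hM ih =>
    rw [Finset.sum_Ioc_succ_top hM]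
    have h1 := zt_succ (M + 1) (by omega)
    linarith

theorem sum_le (k₀ : ℕ) (hk₀ : 1 ≤ k₀) (T : Finset ℕ) (hT : ∀ k ∈ T, k₀ < k) :
    ∑ k ∈ T, (zt k - 1) ≤ 1 / 3 * (zt k₀ - 1) := by
  have h1 : T ⊆ Finset.Ioc k₀ (max k₀ (T.sup id)) := fun k hk => by
    rw [Finset.mem_Ioc]
    exact ⟨hT k hk, le_max_of_le_right (Finset.le_sup (f := id) hk)⟩
  have h2 : ∑ k ∈ T, (zt k - 1) ≤ ∑ k ∈ Finset.Ioc k₀ (max k₀ (T.sup id)), (zt k - 1) := by
    refine Finset.sum_le_sum_of_subset_of_nonneg h1 fun k hk _ => ?_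
    rw [Finset.mem_Ioc] at hk
    linarith [one_lt_zt k (by omega)]
  have h3 := sum_Ioc_le k₀ (max k₀ (T.sup id)) (le_max_left _ _)
  have h4 := zt_succ k₀ hk₀
  have h5 := one_lt_zt (max k₀ (T.sup id) + 1) (by omega)
  linarith

/-- the logarithm of `ζ(2k)/ζ(2k+2h)` -/
noncomputable def lr (h k : ℕ) : ℝ := Real.log (zt k) - Real.log (zt (k + h))

theorem lr_lt (h k : ℕ) (hk : 1 ≤ k) : lr h k ≤ zt k - 1 := by
  have h1 := log_zt_le k hk
  have h2 := Real.log_pos (one_lt_zt (k + h) (by omega))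
  unfold lr
  linarith

theorem zt_add_le (k : ℕ) (hk : 1 ≤ k) (h : ℕ) (hh : 1 ≤ h) :
    zt (k + h) - 1 ≤ (zt k - 1) / 4 := by
  induction h, hh using Nat.le_induction with
  | base => exact zt_succ k hk
  | succ h hh ih =>
    have h1 := zt_succ (k + h) (by omega)
    have h2 := one_lt_zt (k + h) (by omega)
    rw [← add_assoc]
    linarith

theorem lt_lr (h k : ℕ) (hh : 1 ≤ h) (hk : 1 ≤ k) : 1 / 3 * (zt k - 1) < lr h k := by
  have h1 := lt_log_zt k hk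
  have h2 := log_zt_le (k + h) (by omega)
  have h3 := zt_add_le k hk h hh
  unfold lr
  linarith

theorem lr_pos (h k : ℕ) (hh : 1 ≤ h) (hk : 1 ≤ k) : 0 < lr h k := by
  have h1 := lt_lr h k hh hk
  have h2 := one_lt_zt k hk
  linarith

/-- the key step -/
theorem key (h : ℕ) (hh : 1 ≤ h) (A B : Finset ℕ) (hA : ∀ k ∈ A, 1 ≤ k) (k₀ : ℕ) (h0 : k₀ ∈ A)
    (hB : ∀ k ∈ B, k₀ < k) : ∑ k ∈ B, lr h k < ∑ k ∈ A, lr h k := by
  have hk₀ := hA k₀ h0
  calc ∑ k ∈ B, lr h k ≤ ∑ k ∈ B, (zt k - 1) :=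
        Finset.sum_le_sum fun k hk => lr_lt h k (by have := hB k hk; omega)
    _ ≤ 1 / 3 * (zt k₀ - 1) := sum_le k₀ hk₀ B hB
    _ < lr h k₀ := lt_lr h k₀ hh hk₀
    _ ≤ ∑ k ∈ A, lr h k :=
        Finset.single_le_sum (f := lr h) (fun k hk => (lr_pos h k hh (hA k hk)).le) h0

theorem sum_lr_inj (h : ℕ) (hh : 1 ≤ h) (S T : Finset ℕ) (hS : ∀ k ∈ S, 1 ≤ k)
    (hT : ∀ k ∈ T, 1 ≤ k) (hp : ∑ k ∈ S, lr h k = ∑ k ∈ T, lr h k) : S = T := by
  by_contra hne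
  have h1 : ∑ k ∈ S \ T, lr h k = ∑ k ∈ T \ S, lr h k := by
    have h2 := Finset.sum_inter_add_sum_sdiff S T (lr h)
    have h3 := Finset.sum_inter_add_sum_sdiff T S (lr h)
    rw [Finset.inter_comm] at h3
    linarith
  have h2 : (symmDiff S T).Nonempty := by
    rw [Finset.nonempty_iff_ne_empty]
    intro h0
    exact hne (symmDiff_eq_bot.1 h0)
  set k₀ := (symmDiff S T).min' h2 with hk₀
  have h3 : k₀ ∈ symmDiff S T := Finset.min'_mem _ _
  have h4 : ∀ k ∈ symmDiff S T, k₀ ≤ k := fun k hk => Finset.min'_le _ _ hk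
  rw [Finset.mem_symmDiff] at h3
  rcases h3 with h3 | h3
  · refine absurd h1 (key h hh (S \ T) (T \ S) (fun k hk => hS k (Finset.mem_sdiff.1 hk).1) k₀
      (Finset.mem_sdiff.2 h3) fun k hk => ?_).ne'
    rw [Finset.mem_sdiff] at hk
    refine lt_of_le_of_ne (h4 k (Finset.mem_symmDiff.2 (Or.inr hk))) ?_
    rintro rfl
    exact h3.2 hk.1
  · refine absurd h1 (key h hh (T \ S) (S \ T) (fun k hk => hT k (Finset.mem_sdiff.1 hk).1) k₀
      (Finset.mem_sdiff.2 h3) fun k hk => ?_).ne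
    rw [Finset.mem_sdiff] at hk
    refine lt_of_le_of_ne (h4 k (Finset.mem_symmDiff.2 (Or.inl hk))) ?_
    rintro rfl
    exact h3.2 hk.1

theorem zt_eq (k : ℕ) (hk : 1 ≤ k) : zt k =
    (2 : ℝ) ^ (2 * k - 1) * π ^ (2 * k) * |(bernoulli (2 * k) : ℝ)| / (2 * k)! := by
  have h1 : zt k = _ := (hasSum_zeta_nat (k := k) (by omega)).tsum_eq
  have h2 := one_lt_zt k hk
  rw [← abs_of_pos (show 0 < zt k by linarith), h1]
  simp only [abs_div, abs_mul, abs_pow, abs_neg, abs_one, one_pow, one_mul, Nat.abs_cast,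
    Nat.abs_ofNat, abs_of_pos Real.pi_pos]

theorem rr_eq (h k : ℕ) (hk : 1 ≤ k) :
    ((rr h k : ℚ) : ℝ) = π ^ (2 * h) * Real.exp (lr h k) := by
  have h1 := one_lt_zt k hk
  have h2 := one_lt_zt (k + h) (by omega)
  have h3 : Real.exp (lr h k) = zt k / zt (k + h) := by
    rw [lr, Real.exp_sub, Real.exp_log (by linarith), Real.exp_log (by linarith)]
  have hb : |(bernoulli (2 * (k + h)) : ℝ)| ≠ 0 := by
    intro h0
    rw [zt_eq (k + h) (by omega), h0] at h2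
    norm_num at h2
  have hf1 : ((2 * k)! : ℝ) ≠ 0 := by positivity
  have hf2 : ((2 * (k + h))! : ℝ) ≠ 0 := by positivity
  have hpi : (π : ℝ) ≠ 0 := Real.pi_ne_zero
  have hp : (2 : ℝ) ^ (2 * (k + h) - 1) = 2 ^ (2 * k - 1) * 4 ^ h := by
    rw [show 2 * (k + h) - 1 = (2 * k - 1) + 2 * h by omega, pow_add, pow_mul 2 2 h]
    norm_num
  have hp2 : (π : ℝ) ^ (2 * (k + h)) = π ^ (2 * k) * π ^ (2 * h) := by
    rw [mul_add, pow_add]
  rw [h3, zt_eq k hk, zt_eq (k + h) (by omega), hp, hp2, rr]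
  push_cast
  field_simp

end RowC

open RowC in
theorem prod_rr_inj (h : ℕ) (hh : 1 ≤ h) (S T : Finset ℕ) (hS : ∀ k ∈ S, 1 ≤ k)
    (hT : ∀ k ∈ T, 1 ≤ k) (hc : S.card = T.card)
    (hp : ∏ k ∈ S, rr h k = ∏ k ∈ T, rr h k) : S = T := by
  have key : ∀ A : Finset ℕ, (∀ k ∈ A, 1 ≤ k) → ((∏ k ∈ A, rr h k : ℚ) : ℝ) =
      (π ^ (2 * h)) ^ A.card * Real.exp (∑ k ∈ A, lr h k) := fun A hA => by
    rw [Real.exp_sum, Rat.cast_prod, Finset.prod_congr rfl fun k hk => rr_eq h k (hA k hk),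
      Finset.prod_mul_distrib, Finset.prod_const]
  refine sum_lr_inj h hh S T hS hT ?_
  have h1 := congrArg (fun x : ℚ => (x : ℝ)) hp
  simp only [key S hS, key T hT, hc] at h1
  have h2 : ((π : ℝ) ^ (2 * h)) ^ T.card ≠ 0 := by
    have := Real.pi_pos
    positivity
  exact Real.exp_injective (mul_left_cancel₀ h2 h1)

end Pool.Agent.IrrPairs
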