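import Pool.Agent.IrrPairs.RowB
import Pool.Agent.IrrPairs.RowC

set_option autoImplicit false
set_option linter.style.longLine false

/-! Pigeonhole on subsets (MP_4a79a0_nt). -/

namespace Pool.Agent.IrrPairs

open Finset

private lemma rd_pos (h k : ℕ) : 0 < rr h k := by
  unfold rr
  have h1 := abs_pos.2 (bernoulli_two_mul_ne_zero k)
  have h2 := abs_pos.2 (bernoulli_two_mul_ne_zero (k + h))
  have h3 : (0 : ℚ) < ((2 * (k + h)).factorial : ℚ) := by exact_mod_cast Nat.factorial_pos _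
  have h4 : (0 : ℚ) < ((2 * k).factorial : ℚ) := by exact_mod_cast Nat.factorial_pos _
  positivity

private lemma rd_abs (q : ℕ) (x : ℚ) : padicValRat q |x| = padicValRat q x := by
  rcases abs_choice x with h | h <;> rw [h]
  exact padicValRat.neg x

private lemma rd_fact (q : ℕ) [hq : Fact q.Prime] (m : ℕ) : padicValNat q m.factorial ≤ m := by
  have h1 := sub_one_mul_padicValNat_factorial (p := q) m
  have h2 : 1 ≤ q - 1 := by have := hq.out.two_le; omega
  calc padicValNat q m.factorial ≤ (q - 1) * padicValNat q m.factorial :=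
        Nat.le_mul_of_pos_left _ h2
    _ = m - (q.digits m).sum := h1
    _ ≤ m := Nat.sub_le _ _

private lemma rd_four (q : ℕ) [hq : Fact q.Prime] : padicValNat q 4 ≤ 2 := by
  by_contra hcon
  push Not at hcon
  have h1 : q ^ 3 ∣ 4 := (pow_dvd_pow q hcon).trans pow_padicValNat_dvd
  have h2 := Nat.le_of_dvd (by norm_num) h1
  have h3 : 2 ^ 3 ≤ q ^ 3 := Nat.pow_le_pow_left hq.out.two_le 3
  omega

private lemma rd_val (h n k q : ℕ) (hhn : h ≤ n) (hn : 50 ≤ n) (hk : 1 ≤ k) (hkn : k ≤ n)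
    (hq : q.Prime) : |padicValRat q (rr h k)| ≤ 21 * (n : ℤ) ^ 2 := by
  have : Fact q.Prime := ⟨hq⟩
  have b1 : |bernoulli (2 * k)| ≠ 0 := abs_ne_zero.2 (bernoulli_two_mul_ne_zero k)
  have b2 : |bernoulli (2 * (k + h))| ≠ 0 := abs_ne_zero.2 (bernoulli_two_mul_ne_zero (k + h))
  have f1 : ((2 * (k + h)).factorial : ℚ) ≠ 0 := by exact_mod_cast Nat.factorial_ne_zero _
  have f2 : ((2 * k).factorial : ℚ) ≠ 0 := by exact_mod_cast Nat.factorial_ne_zero _
  have f4 : ((4 : ℕ) : ℚ) ^ h ≠ 0 := by positivity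
  have e : rr h k = |bernoulli (2 * k)| / |bernoulli (2 * (k + h))|
    * (((2 * (k + h)).factorial : ℚ) / ((2 * k).factorial : ℚ)) / ((4 : ℕ) : ℚ) ^ h := by
    unfold rr
    norm_num
  have hv : padicValRat q (rr h k) = padicValRat q (bernoulli (2 * k))
      - padicValRat q (bernoulli (2 * (k + h)))
      + ((padicValNat q (2 * (k + h)).factorial : ℤ) - (padicValNat q (2 * k).factorial : ℤ))
      - h * (padicValNat q 4 : ℤ) := by
    rw [e, padicValRat.div (mul_ne_zero (div_ne_zero b1 b2) (div_ne_zero f1 f2)) f4,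
      padicValRat.mul (div_ne_zero b1 b2) (div_ne_zero f1 f2), padicValRat.div b1 b2,
      padicValRat.div f1 f2, padicValRat.pow, rd_abs, rd_abs, padicValRat.of_nat,
      padicValRat.of_nat, padicValRat.of_nat]
  have h1 := abs_padicValRat_bernoulli_le q hq k hk
  have h2 := abs_padicValRat_bernoulli_le q hq (k + h) (by omega)
  have h3 := rd_fact q (2 * (k + h))
  have h4 := rd_fact q (2 * k)
  have h5 := rd_four q
  have h6 : (h : ℤ) * (padicValNat q 4 : ℤ) ≤ 2 * h := by
    have : (padicValNat q 4 : ℤ) ≤ 2 := by exact_mod_cast h5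
    nlinarith [Int.natCast_nonneg h]
  have h7 : 0 ≤ (h : ℤ) * (padicValNat q 4 : ℤ) := by positivity
  have h8 : (padicValNat q (2 * (k + h)).factorial : ℤ) ≤ 2 * (k + h) := by exact_mod_cast h3
  have h9 : (padicValNat q (2 * k).factorial : ℤ) ≤ 2 * k := by exact_mod_cast h4
  have h10 : (0 : ℤ) ≤ (padicValNat q (2 * (k + h)).factorial : ℤ) := Int.natCast_nonneg _
  have h11 : (0 : ℤ) ≤ (padicValNat q (2 * k).factorial : ℤ) := Int.natCast_nonneg _
  push_cast at h1 h2
  have c1 : (k : ℤ) ≤ n := by exact_mod_cast hkn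
  have c2 : (h : ℤ) ≤ n := by exact_mod_cast hhn
  have c3 : (50 : ℤ) ≤ n := by exact_mod_cast hn
  have c4 : (0 : ℤ) ≤ k := Int.natCast_nonneg _
  have c5 : (0 : ℤ) ≤ h := Int.natCast_nonneg _
  have d1 : (2 * (k : ℤ) + 2) ^ 2 ≤ (2 * n + 2) ^ 2 := by
    apply pow_le_pow_left₀ (by positivity)
    linarith
  have d2 : (2 * ((k : ℤ) + h) + 2) ^ 2 ≤ (4 * n + 2) ^ 2 := by
    apply pow_le_pow_left₀ (by positivity)
    linarith
  rw [abs_le] at h1 h2
  rw [hv, abs_le]
  constructor <;> nlinarith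

private lemma rd_prod (h q : ℕ) (hq : q.Prime) (S : Finset ℕ) :
    padicValRat q (∏ k ∈ S, rr h k) = ∑ k ∈ S, padicValRat q (rr h k) := by
  have : Fact q.Prime := ⟨hq⟩
  classical
  induction S using Finset.induction_on with
  | empty => simp
  | insert a S ha ih =>
    rw [prod_insert ha, sum_insert ha, padicValRat.mul (rd_pos h a).ne'
      (prod_pos fun k _ => rd_pos h k).ne', ih]

private lemma rd_one {z : ℚ} (hz : 0 < z) (h : ∀ q : ℕ, q.Prime → padicValRat q z = 0) :
    z = 1 := by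
  have hden : z.den = 1 := by
    by_contra hne
    obtain ⟨q, hq, hqd⟩ := Nat.exists_prime_and_dvd hne
    have : Fact q.Prime := ⟨hq⟩
    have h1 := h q hq
    have h2 : ¬ q ∣ z.num.natAbs := fun h3 => by
      have := Nat.dvd_gcd h3 hqd
      rw [z.reduced] at this
      exact hq.one_lt.ne' (Nat.dvd_one.1 this)
    have h3 : padicValNat q z.den ≠ 0 := by
      have := one_le_padicValNat_of_dvd z.den_ne_zero hqd
      omega
    have h4 : padicValInt q z.num = 0 := padicValNat.eq_zero_of_not_dvd h2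
    have h5 : padicValRat q z = (padicValInt q z.num : ℤ) - padicValNat q z.den := rfl
    rw [h5, h4] at h1
    apply h3
    have : (padicValNat q z.den : ℤ) = 0 := by
      rw [Nat.cast_zero, zero_sub] at h1
      linarith
    exact_mod_cast this
  have hnum : z.num.natAbs = 1 := by
    by_contra hne
    obtain ⟨q, hq, hqd⟩ := Nat.exists_prime_and_dvd hne
    have : Fact q.Prime := ⟨hq⟩
    have h1 := h q hq
    have h0 : z.num.natAbs ≠ 0 := Int.natAbs_ne_zero.2 (Rat.num_ne_zero.2 hz.ne')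
    have h3 := one_le_padicValNat_of_dvd h0 hqd
    have h5 : padicValRat q z = (padicValInt q z.num : ℤ) - padicValNat q z.den := rfl
    rw [h5, hden, padicValNat_one_right] at h1
    have h6 : padicValInt q z.num = padicValNat q z.num.natAbs := rfl
    rw [h6, Nat.cast_zero, sub_zero] at h1
    have h7 : padicValNat q z.num.natAbs = 0 := by exact_mod_cast h1
    omega
  have h3 : 0 < z.num := Rat.num_pos.2 hz
  have h4 : z.num = 1 := by omega
  rw [← Rat.num_div_den z, hden, h4]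
  norm_num

private lemma rd_eq {x y : ℚ} (hx : 0 < x) (hy : 0 < y)
    (h : ∀ q : ℕ, q.Prime → padicValRat q x = padicValRat q y) : x = y := by
  have h1 : x / y = 1 := by
    refine rd_one (div_pos hx hy) fun q hq => ?_
    have : Fact q.Prime := ⟨hq⟩
    rw [padicValRat.div hx.ne' hy.ne', h q hq, sub_self]
  rwa [div_eq_one_iff_eq hy.ne'] at h1

theorem lemmaP (h n : ℕ) (hh : 1 ≤ h) (hhn : h ≤ n) (hn : 50 ≤ n) (G : Finset ℕ)
    (hG : G ⊆ Finset.Icc 1 n) (Q : Finset ℕ)
    (hQ : ∀ k ∈ G, ∀ q : ℕ, q.Prime → q ∉ Q → padicValRat q (rr h k) = 0) :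
    2 ^ G.card ≤ (n + 1) * (n ^ 4) ^ Q.card := by
  classical
  let Q' : Finset ℕ := Q.filter Nat.Prime
  have hGn : G.card ≤ n := by
    have := card_le_card hG
    simpa using this
  let Φ : Finset ℕ → ℕ × (Q' → ℤ) := fun S =>
    (S.card, fun q => padicValRat q (∏ k ∈ S, rr h k))
  let B : Finset (ℕ × (Q' → ℤ)) := (range (n + 1)) ×ˢ
    (Fintype.piFinset fun _ : Q' => Finset.Icc (-(21 * (n : ℤ) ^ 3)) (21 * (n : ℤ) ^ 3))
  have hmaps : ∀ S ∈ G.powerset, Φ S ∈ B := by
    intro S hS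
    rw [mem_powerset] at hS
    have hSn : S.card ≤ n := (card_le_card hS).trans hGn
    refine mem_product.2 ⟨mem_range.2 (by simp only [Φ]; omega), ?_⟩
    rw [Fintype.mem_piFinset]
    intro q
    have hq : (q : ℕ).Prime := (mem_filter.1 q.2).2
    simp only [Φ]
    rw [rd_prod h q hq S, mem_Icc, ← abs_le]
    refine (abs_sum_le_sum_abs _ _).trans ?_
    have h1 : ∑ k ∈ S, |padicValRat (q : ℕ) (rr h k)| ≤ ∑ _k ∈ S, 21 * (n : ℤ) ^ 2 := by
      refine sum_le_sum fun k hk => ?_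
      have hk2 := mem_Icc.1 (hG (hS hk))
      exact rd_val h n k q hhn hn hk2.1 hk2.2 hq
    refine h1.trans ?_
    rw [sum_const, nsmul_eq_mul]
    have h2 : (S.card : ℤ) ≤ n := by exact_mod_cast hSn
    calc (S.card : ℤ) * (21 * (n : ℤ) ^ 2) ≤ n * (21 * (n : ℤ) ^ 2) :=
          mul_le_mul_of_nonneg_right h2 (by positivity)
      _ = _ := by ring
  have hinj : Set.InjOn Φ (G.powerset : Set (Finset ℕ)) := by
    intro S hS T hT hST
    have hS' : S ⊆ G := mem_powerset.1 (by exact_mod_cast hS)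
    have hT' : T ⊆ G := mem_powerset.1 (by exact_mod_cast hT)
    have hc : S.card = T.card := congrArg Prod.fst hST
    have hv := congrArg Prod.snd hST
    refine prod_rr_inj h hh S T (fun k hk => (mem_Icc.1 (hG (hS' hk))).1)
      (fun k hk => (mem_Icc.1 (hG (hT' hk))).1) hc ?_
    refine rd_eq (prod_pos fun k _ => rd_pos h k) (prod_pos fun k _ => rd_pos h k) ?_
    intro q hq
    by_cases hqQ : q ∈ Q
    · exact congrFun hv ⟨q, mem_filter.2 ⟨hqQ, hq⟩⟩
    · rw [rd_prod h q hq, rd_prod h q hq, sum_eq_zero fun k hk => hQ k (hS' hk) q hq hqQ,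
        sum_eq_zero fun k hk => hQ k (hT' hk) q hq hqQ]
  have hcard := card_le_card_of_injOn Φ hmaps hinj
  rw [card_powerset] at hcard
  refine hcard.trans ?_
  have h1 : B.card = (n + 1) * (42 * n ^ 3 + 1) ^ Q'.card := by
    simp only [B]
    rw [card_product, card_range, Fintype.card_piFinset, prod_const, Int.card_Icc, card_univ,
      Fintype.card_coe]
    congr 2
    have : (21 * (n : ℤ) ^ 3 + 1 - -(21 * (n : ℤ) ^ 3)) = ((42 * n ^ 3 + 1 : ℕ) : ℤ) := by
      push_cast
      ring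
    rw [this, Int.toNat_natCast]
  rw [h1]
  have h2 : 42 * n ^ 3 + 1 ≤ n ^ 4 := by
    have : 1 ≤ n ^ 3 := Nat.one_le_pow _ _ (by omega)
    have h3 : n ^ 4 = n * n ^ 3 := by ring
    rw [h3]
    calc 42 * n ^ 3 + 1 ≤ 43 * n ^ 3 := by omega
      _ ≤ n * n ^ 3 := Nat.mul_le_mul_right _ (by omega)
  refine Nat.mul_le_mul_left _ ?_
  calc (42 * n ^ 3 + 1) ^ Q'.card ≤ (n ^ 4) ^ Q'.card := Nat.pow_le_pow_left h2 _
    _ ≤ (n ^ 4) ^ Q.card :=
        Nat.pow_le_pow_right (Nat.one_le_pow _ _ (by omega)) (card_filter_le _ _)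

end Pool.Agent.IrrPairs
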