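import Pool.Agent.IrrPairs.Defs

/-!
MP_4a79a0_nt, row E: bad indices are rare.
-/

set_option autoImplicit false

namespace Pool.Agent.IrrPairs

open Finset Filter

namespace RowE

/-- the indices `k` with `d ∣ 2 k + c` -/
def A (n d c : ℕ) : Finset ℕ := (Finset.Icc 1 n).filter (fun k => d ∣ 2 * k + c)

theorem card_A_le (n d c : ℕ) (hd : 0 < d) : (A n d c).card ≤ (2 * n + c) / d + 1 := by
  have h : (A n d c).card ≤ (Finset.range ((2 * n + c) / d + 1)).card := by
    apply Finset.card_le_card_of_injOn (fun k => (2 * k + c) / d)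
    · intro k hk
      rw [A, Finset.coe_filter, Set.mem_setOf_eq, Finset.mem_Icc] at hk
      rw [Finset.coe_range, Set.mem_Iio]
      exact Nat.lt_succ_of_le (Nat.div_le_div_right (by omega))
    · intro k hk k' hk' he
      rw [A, Finset.coe_filter, Set.mem_setOf_eq, Finset.mem_Icc] at hk hk'
      have h1 := Nat.div_mul_cancel hk.2
      have h2 := Nat.div_mul_cancel hk'.2
      have he' : (2 * k + c) / d = (2 * k' + c) / d := he
      rw [he'] at h1
      omega
  rwa [Finset.card_range] at h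

theorem card_A_real (ε : ℝ) (hε : 0 < ε) (n d c : ℕ) (hn : 0 < n) (hc : c ≤ n)
    (hd : ε * n / 2 ≤ (d : ℝ)) : ((A n d c).card : ℝ) ≤ 6 / ε + 1 := by
  have hn' : (0 : ℝ) < n := by exact_mod_cast hn
  have hpos : (0 : ℝ) < ε * n / 2 := by positivity
  have hd0 : (0 : ℝ) < d := lt_of_lt_of_le hpos hd
  have hd1 : 0 < d := by exact_mod_cast hd0
  have h1 : ((A n d c).card : ℝ) ≤ (((2 * n + c) / d + 1 : ℕ) : ℝ) := by
    exact_mod_cast card_A_le n d c hd1
  have h2 : (((2 * n + c) / d : ℕ) : ℝ) ≤ ((2 * n + c : ℕ) : ℝ) / d := Nat.cast_div_le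
  have h3 : ((2 * n + c : ℕ) : ℝ) / d ≤ 6 / ε := by
    rw [div_le_div_iff₀ hd0 hε]
    have h4 : ((2 * n + c : ℕ) : ℝ) ≤ 3 * n := by
      have : 2 * n + c ≤ 3 * n := by omega
      exact_mod_cast this
    calc ((2 * n + c : ℕ) : ℝ) * ε ≤ 3 * n * ε := by gcongr
      _ = 6 * (ε * n / 2) := by ring
      _ ≤ 6 * d := by gcongr
  push_cast at h1 h2 ⊢
  push_cast at h3
  linarith

theorem pi_small (c : ℝ) (hc : 0 < c) :
    ∀ᶠ n : ℕ in atTop, ((Nat.primesLE (4 * n)).card : ℝ) ≤ c * n := by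
  have h1 := Chebyshev.eventually_primeCounting_le (ε := 1) one_pos
  have ht : Tendsto (fun n : ℕ => ((4 * n : ℕ) : ℝ)) atTop atTop := by
    apply tendsto_natCast_atTop_atTop.comp
    exact Filter.Tendsto.const_mul_atTop' (by norm_num) tendsto_id
  have h2 := ht.eventually h1
  have h3 : ∀ᶠ n : ℕ in atTop, (Real.log 4 + 1) * 4 / c ≤ Real.log ((4 * n : ℕ) : ℝ) :=
    (Real.tendsto_log_atTop.comp ht).eventually_ge_atTop _
  filter_upwards [h2, h3, eventually_ge_atTop 1] with n hn2 hn3 hn1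
  rw [Nat.floor_natCast] at hn2
  have hcard : ((Nat.primesLE (4 * n)).card : ℝ) = (Nat.primeCounting (4 * n) : ℝ) := by
    rw [Nat.primesLE_card_eq_primeCounting]
  rw [hcard]
  refine hn2.trans ?_
  have hl4 : 0 < Real.log 4 := Real.log_pos (by norm_num)
  have hpos : (0 : ℝ) < (Real.log 4 + 1) * 4 / c := by positivity
  have hlog : 0 < Real.log ((4 * n : ℕ) : ℝ) := lt_of_lt_of_le hpos hn3
  rw [div_le_iff₀ hlog]
  have h5 : (Real.log 4 + 1) * 4 ≤ Real.log ((4 * n : ℕ) : ℝ) * c := by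
    rwa [div_le_iff₀ hc] at hn3
  have hn0 : (0 : ℝ) ≤ n := Nat.cast_nonneg n
  push_cast at h5 ⊢
  nlinarith

end RowE

open RowE in
theorem bad_count (ε : ℝ) (hε : 0 < ε) (h : ℕ) (η : ℝ) (hη : 0 < η) :
    ∀ᶠ n : ℕ in atTop, ∀ G : Finset ℕ, G ⊆ Finset.Icc 1 n →
      (∀ k ∈ G, ∃ q : ℕ, q.Prime ∧ ε * (n : ℝ) < (q : ℝ) ∧
        ((∃ j ∈ Finset.Icc 0 (2 * h), q ∣ 2 * k + j) ∨ (q - 1) ∣ 2 * k ∨
          (q - 1) ∣ 2 * (k + h))) →
      (G.card : ℝ) ≤ η * n := by
  set C : ℝ := 6 / ε + 1 with hC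
  have hC0 : 0 < C := by positivity
  have hK : 0 < (2 * (h : ℝ) + 3) * C := by positivity
  have hsmall := pi_small (η / ((2 * (h : ℝ) + 3) * C)) (div_pos hη hK)
  filter_upwards [hsmall, eventually_ge_atTop (2 * h + 1),
    (tendsto_natCast_atTop_atTop (R := ℝ)).eventually_ge_atTop (2 / ε)] with n hn1 hn2 hn3
  intro G hG hbad
  have hnpos : 0 < n := by omega
  have hn3' : 2 ≤ ε * n := by
    rw [div_le_iff₀ hε] at hn3
    linarith
  set B : ℕ → Finset ℕ := fun q => ((Finset.Icc 0 (2 * h)).biUnion (fun j => A n q j)) ∪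
    (A n (q - 1) 0 ∪ A n (q - 1) (2 * h)) with hB
  set P : Finset ℕ := (Nat.primesLE (4 * n)).filter (fun q => ε * (n : ℝ) < (q : ℝ)) with hP
  have hsub : G ⊆ P.biUnion B := by
    intro k hk
    have hkn := Finset.mem_Icc.1 (hG hk)
    obtain ⟨q, hq, hqn, hor⟩ := hbad k hk
    have hq1 : q - 1 + 1 = q := Nat.sub_add_cancel hq.one_le
    have hqle : q ≤ 4 * n := by
      rcases hor with ⟨j, hj, hd⟩ | hd | hd
      · have := Nat.le_of_dvd (by omega) hd
        have hj' := (Finset.mem_Icc.1 hj).2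
        omega
      · have := Nat.le_of_dvd (by omega) hd
        omega
      · have := Nat.le_of_dvd (by omega) hd
        omega
    rw [Finset.mem_biUnion]
    refine ⟨q, ?_, ?_⟩
    · rw [hP, Finset.mem_filter, Nat.mem_primesLE]
      exact ⟨⟨hqle, hq⟩, hqn⟩
    · rw [hB, Finset.mem_union, Finset.mem_union]
      rcases hor with ⟨j, hj, hd⟩ | hd | hd
      · left
        rw [Finset.mem_biUnion]
        exact ⟨j, hj, Finset.mem_filter.2 ⟨hG hk, hd⟩⟩
      · right; left
        exact Finset.mem_filter.2 ⟨hG hk, by simpa using hd⟩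
      · right; right
        refine Finset.mem_filter.2 ⟨hG hk, ?_⟩
        rwa [← mul_add]
  have hBcard : ∀ q ∈ P, ((B q).card : ℝ) ≤ (2 * (h : ℝ) + 3) * C := by
    intro q hqP
    rw [hP, Finset.mem_filter, Nat.mem_primesLE] at hqP
    obtain ⟨⟨-, hq⟩, hqn⟩ := hqP
    have hd1 : ε * n / 2 ≤ (q : ℝ) := by linarith
    have hd2 : ε * n / 2 ≤ ((q - 1 : ℕ) : ℝ) := by
      rw [Nat.cast_sub hq.one_le]
      push_cast
      linarith
    have h1 : ((B q).card : ℝ) ≤ (((Finset.Icc 0 (2 * h)).biUnion (fun j => A n q j)).card : ℝ)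
        + (((A n (q - 1) 0).card : ℝ) + ((A n (q - 1) (2 * h)).card : ℝ)) := by
      have e1 := Finset.card_union_le ((Finset.Icc 0 (2 * h)).biUnion (fun j => A n q j))
        (A n (q - 1) 0 ∪ A n (q - 1) (2 * h))
      have e2 := Finset.card_union_le (A n (q - 1) 0) (A n (q - 1) (2 * h))
      have e3 : (B q).card ≤ ((Finset.Icc 0 (2 * h)).biUnion (fun j => A n q j)).card +
        ((A n (q - 1) 0).card + (A n (q - 1) (2 * h)).card) := e1.trans (by omega)
      exact_mod_cast e3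
    have h2 : (((Finset.Icc 0 (2 * h)).biUnion (fun j => A n q j)).card : ℝ) ≤
        (2 * (h : ℝ) + 1) * C := by
      have e1 := Finset.card_biUnion_le (s := Finset.Icc 0 (2 * h)) (t := fun j => A n q j)
      have e2 : (((Finset.Icc 0 (2 * h)).biUnion (fun j => A n q j)).card : ℝ) ≤
          ∑ j ∈ Finset.Icc 0 (2 * h), ((A n q j).card : ℝ) := by exact_mod_cast e1
      refine e2.trans ?_
      have e3 : ∑ j ∈ Finset.Icc 0 (2 * h), ((A n q j).card : ℝ) ≤
          ∑ _j ∈ Finset.Icc 0 (2 * h), C := by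
        apply Finset.sum_le_sum
        intro j hj
        have hj' := (Finset.mem_Icc.1 hj).2
        exact card_A_real ε hε n q j hnpos (by omega) hd1
      refine e3.trans ?_
      rw [Finset.sum_const, Nat.card_Icc, nsmul_eq_mul]
      push_cast
      simp
    have h3 := card_A_real ε hε n (q - 1) 0 hnpos (by omega) hd2
    have h4 := card_A_real ε hε n (q - 1) (2 * h) hnpos (by omega) hd2
    rw [← hC] at h3 h4
    linarith
  have hPcard : (P.card : ℝ) ≤ ((Nat.primesLE (4 * n)).card : ℝ) := by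
    exact_mod_cast Finset.card_filter_le _ _
  calc (G.card : ℝ) ≤ ((P.biUnion B).card : ℝ) := by exact_mod_cast Finset.card_le_card hsub
    _ ≤ ∑ q ∈ P, ((B q).card : ℝ) := by exact_mod_cast Finset.card_biUnion_le
    _ ≤ ∑ _q ∈ P, (2 * (h : ℝ) + 3) * C := Finset.sum_le_sum hBcard
    _ = P.card * ((2 * (h : ℝ) + 3) * C) := by rw [Finset.sum_const, nsmul_eq_mul]
    _ ≤ (η / ((2 * (h : ℝ) + 3) * C) * n) * ((2 * (h : ℝ) + 3) * C) := by
        gcongr
        exact hPcard.trans hn1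
    _ = η * n := by
        field_simp

end Pool.Agent.IrrPairs
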