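import Pool.Agent.IrrPairs.Defs

set_option autoImplicit false

/-!
Prime counting in the form used for irregular pairs: two consequences of Chebyshev's upper bound.
-/

namespace Pool.Agent.IrrPairs

open Finset Filter

theorem card_filter_prime_le (N : ℕ) :
    ((Finset.Icc 1 N).filter Nat.Prime).card ≤ Nat.primeCounting N := by
  rw [Nat.primeCounting, Nat.primeCounting', Nat.count_eq_card_filter_range]
  apply Finset.card_le_card
  intro p hp
  simp only [Finset.mem_filter, Finset.mem_Icc, Finset.mem_range] at hp ⊢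
  exact ⟨by omega, hp.2⟩

theorem log_four_lt : Real.log 4 + 1 / 10 < 3 / 2 := by
  have h : Real.log 4 = 2 * Real.log 2 := by
    rw [show (4 : ℝ) = 2 ^ 2 by norm_num, Real.log_pow]
    norm_num
  have := Real.log_two_lt_d9
  rw [h]
  linarith

theorem primes_log (C : ℝ) (hC : 0 < C) :
    ∀ᶠ n : ℕ in atTop,
      ((((Finset.Icc 1 ⌊C * (n : ℝ)⌋₊).filter Nat.Prime).card : ℕ) : ℝ) * Real.log n ≤ 2 * C * n := by
  have h1 : Tendsto (fun n : ℕ => C * (n : ℝ)) atTop atTop :=
    Tendsto.const_mul_atTop hC tendsto_natCast_atTop_atTop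
  have h2 := h1.eventually (Chebyshev.eventually_primeCounting_le (ε := 1 / 10) (by norm_num))
  have h3 : ∀ᶠ n : ℕ in atTop, -(4 * Real.log C) + 1 ≤ Real.log n :=
    (Real.tendsto_log_atTop.comp tendsto_natCast_atTop_atTop).eventually_ge_atTop _
  have h4 : ∀ᶠ n : ℕ in atTop, (1 : ℝ) < C * n := h1.eventually_gt_atTop 1
  filter_upwards [h2, h3, h4, eventually_ge_atTop 1] with n e2 e3 e4 e5
  have hn : (0 : ℝ) < n := by exact_mod_cast e5
  have hl : 0 ≤ Real.log n := Real.log_nonneg (by exact_mod_cast e5)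
  have hL : Real.log (C * n) = Real.log C + Real.log n := Real.log_mul hC.ne' hn.ne'
  have hLpos : 0 < Real.log (C * n) := Real.log_pos e4
  have hc : ((((Finset.Icc 1 ⌊C * (n : ℝ)⌋₊).filter Nat.Prime).card : ℕ) : ℝ)
      ≤ (Nat.primeCounting ⌊C * (n : ℝ)⌋₊ : ℝ) := by
    exact_mod_cast card_filter_prime_le _
  have hb : (Nat.primeCounting ⌊C * (n : ℝ)⌋₊ : ℝ) ≤ 3 / 2 * (C * n) / Real.log (C * n) := by
    refine e2.trans ?_
    gcongr
    exact log_four_lt.le
  have hb2 : (Nat.primeCounting ⌊C * (n : ℝ)⌋₊ : ℝ) * Real.log (C * n) ≤ 3 / 2 * (C * n) := by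
    rwa [le_div_iff₀ hLpos] at hb
  have hq : 3 / 2 * Real.log n ≤ 2 * Real.log (C * n) := by
    rw [hL]; linarith
  have hp0 : (0 : ℝ) ≤ (Nat.primeCounting ⌊C * (n : ℝ)⌋₊ : ℝ) := Nat.cast_nonneg _
  calc _ ≤ (Nat.primeCounting ⌊C * (n : ℝ)⌋₊ : ℝ) * Real.log n := by gcongr
    _ ≤ (Nat.primeCounting ⌊C * (n : ℝ)⌋₊ : ℝ) * (4 / 3 * Real.log (C * n)) := by
        gcongr
        linarith
    _ = 4 / 3 * ((Nat.primeCounting ⌊C * (n : ℝ)⌋₊ : ℝ) * Real.log (C * n)) := by ring
    _ ≤ 4 / 3 * (3 / 2 * (C * n)) := by gcongr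
    _ = 2 * C * n := by ring

theorem primes_small (C : ℝ) (η : ℝ) (hη : 0 < η) :
    ∀ᶠ n : ℕ in atTop, ((((Finset.Icc 1 ⌊C * (n : ℝ)⌋₊).filter Nat.Prime).card : ℕ) : ℝ) ≤ η * n := by
  rcases le_or_gt C 0 with hC | hC
  · refine Filter.Eventually.of_forall fun n => ?_
    have h0 : ⌊C * (n : ℝ)⌋₊ = 0 :=
      Nat.floor_of_nonpos (mul_nonpos_of_nonpos_of_nonneg hC (Nat.cast_nonneg n))
    rw [h0]
    simp
    positivity
  · have h3 : ∀ᶠ n : ℕ in atTop, 2 * C / η + 1 ≤ Real.log n :=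
      (Real.tendsto_log_atTop.comp tendsto_natCast_atTop_atTop).eventually_ge_atTop _
    filter_upwards [primes_log C hC, h3, eventually_ge_atTop 1] with n e1 e3 e5
    have hn : (0 : ℝ) < n := by exact_mod_cast e5
    have hpos : 0 < Real.log n := by
      have : 0 < 2 * C / η := by positivity
      linarith
    have h4 : 2 * C ≤ η * Real.log n := by
      have : 2 * C / η ≤ Real.log n := by linarith
      rw [div_le_iff₀ hη] at this
      linarith
    have h5 : ((((Finset.Icc 1 ⌊C * (n : ℝ)⌋₊).filter Nat.Prime).card : ℕ) : ℝ) * Real.log n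
        ≤ (η * n) * Real.log n := by
      refine e1.trans ?_
      nlinarith
    exact le_of_mul_le_mul_right h5 hpos

end Pool.Agent.IrrPairs
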