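import Pool.Agent.IrrPairs.RowB
import Pool.Agent.IrrPairs.RowD
import Pool.Agent.IrrPairs.RowE
import Pool.Agent.IrrPairs.RowP

set_option autoImplicit false

namespace Pool.Agent.IrrPairs

open Finset Filter

theorem padicValRat_bernoulli_eq_zero (q k : ℕ) (hq : q.Prime) (hk : 1 ≤ k)
    (h1 : ¬ (q - 1) ∣ 2 * k) (hn : ¬ (q : ℤ) ∣ (bernoulli (2 * k)).num) :
    padicValRat q (bernoulli (2 * k)) = 0 := by
  have hd : ¬ q ∣ (bernoulli (2 * k)).den := fun h =>
    h1 (dvd_of_prime_dvd_den k hk q hq h)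
  unfold padicValRat
  rw [padicValInt.eq_zero_of_not_dvd hn, padicValNat.eq_zero_of_not_dvd hd]
  simp

theorem factorial_val_eq (q a m : ℕ) (hq : q.Prime)
    (hj : ∀ j ∈ Finset.Icc 1 m, ¬ q ∣ a + j) :
    padicValNat q (a + m).factorial = padicValNat q a.factorial := by
  have := Fact.mk hq
  induction m with
  | zero => rfl
  | succ m ih =>
    have h1 := ih (fun j hj' => hj j (by
      rw [Finset.mem_Icc] at hj' ⊢; omega))
    have h2 : ¬ q ∣ a + (m + 1) := hj (m + 1) (by rw [Finset.mem_Icc]; omega)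
    rw [← add_assoc, Nat.factorial_succ,
      padicValNat.mul (by omega) (Nat.factorial_ne_zero _), h1,
      padicValNat.eq_zero_of_not_dvd (by rwa [← add_assoc] at h2), zero_add]

theorem padicValRat_rr_eq_zero (h k q : ℕ) (hq : q.Prime) (hk : 1 ≤ k) (h2 : 2 < q)
    (hj : ∀ j ∈ Finset.Icc 1 (2 * h), ¬ q ∣ 2 * k + j)
    (h1 : ¬ (q - 1) ∣ 2 * k) (h1' : ¬ (q - 1) ∣ 2 * (k + h))
    (hn : ¬ (q : ℤ) ∣ (bernoulli (2 * k)).num)
    (hn' : ¬ (q : ℤ) ∣ (bernoulli (2 * (k + h))).num) :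
    padicValRat q (rr h k) = 0 := by
  have := Fact.mk hq
  have e1 := padicValRat_bernoulli_eq_zero q k hq hk h1 hn
  have e2 := padicValRat_bernoulli_eq_zero q (k + h) hq (by omega) h1' hn'
  have e3 : padicValRat q (|bernoulli (2 * k)|) = 0 := by
    rcases abs_choice (bernoulli (2 * k)) with hh | hh
    · rw [hh]; exact e1
    · rw [hh, padicValRat.neg]; exact e1
  have e4 : padicValRat q (|bernoulli (2 * (k + h))|) = 0 := by
    rcases abs_choice (bernoulli (2 * (k + h))) with hh | hh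
    · rw [hh]; exact e2
    · rw [hh, padicValRat.neg]; exact e2
  have b1 : |bernoulli (2 * k)| ≠ 0 := abs_ne_zero.mpr (bernoulli_two_mul_ne_zero k)
  have b2 : |bernoulli (2 * (k + h))| ≠ 0 := abs_ne_zero.mpr (bernoulli_two_mul_ne_zero _)
  have f1 : ((2 * (k + h)).factorial : ℚ) ≠ 0 := by exact_mod_cast Nat.factorial_ne_zero _
  have f2 : ((2 * k).factorial : ℚ) ≠ 0 := by exact_mod_cast Nat.factorial_ne_zero _
  have f3 : padicValRat q (((2 * (k + h)).factorial : ℚ)) =
      padicValRat q (((2 * k).factorial : ℚ)) := by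
    rw [padicValRat.of_nat, padicValRat.of_nat]
    have := factorial_val_eq q (2 * k) (2 * h) hq hj
    rw [← mul_add] at this
    rw [this]
  have f4 : padicValRat q ((4 : ℚ) ^ h) = 0 := by
    have h4 : ¬ q ∣ 4 := by
      intro hd
      have : q ∣ 2 ^ 2 := by norm_num; exact hd
      have := hq.dvd_of_dvd_pow this
      have := Nat.le_of_dvd (by norm_num) this
      omega
    have : ((4 : ℚ) ^ h) = (((4 ^ h : ℕ)) : ℚ) := by push_cast; ring
    rw [this, padicValRat.of_nat, padicValNat.eq_zero_of_not_dvd]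
    · rfl
    · intro hd
      exact h4 (hq.dvd_of_dvd_pow hd)
  unfold rr
  rw [padicValRat.div (by positivity) (by positivity),
    padicValRat.mul (by positivity) (by positivity), padicValRat.div b1 b2,
    padicValRat.div f1 f2, e3, e4, f3, f4]
  ring


/-- Main counting inequality. -/
theorem core (h : ℕ) (hh : 1 ≤ h) (ε : ℝ) (hε : 0 < ε) (η : ℝ) (hη : 0 < η) :
    ∀ᶠ n : ℕ in atTop, ∀ G Q : Finset ℕ, G ⊆ Finset.Icc 1 n →
      (∀ k ∈ G, ∀ q : ℕ, q.Prime → ε * (n : ℝ) < (q : ℝ) → q ∉ Q →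
        ¬ (q : ℤ) ∣ (bernoulli (2 * k)).num ∧
        ¬ (q : ℤ) ∣ (bernoulli (2 * (k + h))).num) →
      (G.card : ℝ) * Real.log 2 ≤ η * n + 8 * ε * n + 4 * (Q.card : ℝ) * Real.log n := by
  have hb := bad_count ε hε h (η / 2) (by positivity)
  have hp := primes_log ε hε
  have hl : ∀ᶠ n : ℕ in atTop, Real.log ((n : ℝ) + 1) ≤ η / 2 * n := by
    have h1 : Tendsto (fun x : ℝ => Real.log x / x) atTop (nhds 0) := by
      have := Real.isLittleO_log_id_atTop
      exact this.tendsto_div_nhds_zero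
    have h2 : ∀ᶠ x : ℝ in atTop, Real.log x / x < η / 4 :=
      h1.eventually (gt_mem_nhds (by positivity))
    have h3 : Tendsto (fun n : ℕ => (n : ℝ) + 1) atTop atTop :=
      tendsto_atTop_add_const_right _ _ tendsto_natCast_atTop_atTop
    filter_upwards [h3.eventually h2, eventually_ge_atTop 1] with n hn h1n
    have hn1 : (1 : ℝ) ≤ n := by exact_mod_cast h1n
    rw [div_lt_iff₀ (by positivity)] at hn
    nlinarith
  have h2n : ∀ᶠ n : ℕ in atTop, (2 : ℝ) < ε * n := by
    have : Tendsto (fun n : ℕ => ε * (n : ℝ)) atTop atTop :=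
      Tendsto.const_mul_atTop hε tendsto_natCast_atTop_atTop
    exact this.eventually (eventually_gt_atTop 2)
  filter_upwards [hb, hp, hl, h2n, eventually_ge_atTop h, eventually_ge_atTop 50]
    with n hb hp hl h2n hhn h50 G Q hG hq
  classical
  set P : Finset ℕ := (Finset.Icc 1 ⌊ε * (n : ℝ)⌋₊).filter Nat.Prime with hP
  set bad : ℕ → Prop := fun k => ∃ q : ℕ, q.Prime ∧ ε * (n : ℝ) < (q : ℝ) ∧
        ((∃ j ∈ Finset.Icc 0 (2 * h), q ∣ 2 * k + j) ∨ (q - 1) ∣ 2 * k ∨
          (q - 1) ∣ 2 * (k + h)) with hbad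
  have hsplit : G.card = (G.filter bad).card + (G.filter (fun k => ¬ bad k)).card :=
    (Finset.card_filter_add_card_filter_not bad).symm
  have hb1 : ((G.filter bad).card : ℝ) ≤ η / 2 * n :=
    hb _ ((Finset.filter_subset _ _).trans hG) (fun k hk => (Finset.mem_filter.mp hk).2)
  have hgood := lemmaP h n hh hhn h50 (G.filter (fun k => ¬ bad k))
    ((Finset.filter_subset _ _).trans hG) (P ∪ Q) (by
      intro k hk q hqp hqQ
      rw [Finset.mem_filter] at hk
      rw [Finset.mem_union, not_or] at hqQ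
      have hk1 : 1 ≤ k := (Finset.mem_Icc.mp (hG hk.1)).1
      have hqn : ε * (n : ℝ) < (q : ℝ) := by
        by_contra hcon
        push Not at hcon
        apply hqQ.1
        rw [hP, Finset.mem_filter, Finset.mem_Icc]
        exact ⟨⟨hqp.one_lt.le, Nat.le_floor hcon⟩, hqp⟩
      have hnb : ¬ ((∃ j ∈ Finset.Icc 0 (2 * h), q ∣ 2 * k + j) ∨ (q - 1) ∣ 2 * k ∨
          (q - 1) ∣ 2 * (k + h)) := fun hcon => hk.2 ⟨q, hqp, hqn, hcon⟩
      push Not at hnb
      obtain ⟨n1, n2, n3⟩ := hnb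
      have hq2 : 2 < q := by
        have : (2 : ℝ) < (q : ℝ) := h2n.trans hqn
        exact_mod_cast this
      obtain ⟨m1, m2⟩ := hq k hk.1 q hqp hqn hqQ.2
      exact padicValRat_rr_eq_zero h k q hqp hk1 hq2
        (fun j hj => n1 j (by rw [Finset.mem_Icc] at hj ⊢; omega)) n2 n3 m1 m2)
  have hn0 : (0 : ℝ) < n := by
    have : 0 < n := by omega
    exact_mod_cast this
  have hlogn : 0 ≤ Real.log n := Real.log_nonneg (by
    have : 1 ≤ n := by omega
    exact_mod_cast this)
  have hcardU : ((P ∪ Q).card : ℝ) ≤ (P.card : ℝ) + (Q.card : ℝ) := by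
    exact_mod_cast Finset.card_union_le P Q
  have hlog : ((G.filter (fun k => ¬ bad k)).card : ℝ) * Real.log 2 ≤
      Real.log ((n : ℝ) + 1) + ((P ∪ Q).card : ℝ) * (4 * Real.log n) := by
    have h1 : ((2 : ℝ) ^ (G.filter (fun k => ¬ bad k)).card) ≤
        ((n : ℝ) + 1) * ((n : ℝ) ^ 4) ^ (P ∪ Q).card := by exact_mod_cast hgood
    have h2 := Real.log_le_log (by positivity) h1
    rw [Real.log_pow, Real.log_mul (by positivity) (by positivity), Real.log_pow,
      Real.log_pow] at h2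
    push_cast at h2
    linarith
  have hlog2 : Real.log 2 ≤ 1 := by
    have := Real.log_two_lt_d9
    linarith
  have hlog2' : 0 ≤ Real.log 2 := Real.log_nonneg (by norm_num)
  have hc : (G.card : ℝ) = ((G.filter bad).card : ℝ) +
      ((G.filter (fun k => ¬ bad k)).card : ℝ) := by exact_mod_cast hsplit
  rw [hc, add_mul]
  have t1 : ((G.filter bad).card : ℝ) * Real.log 2 ≤ η / 2 * n := by
    have h0 : (0 : ℝ) ≤ ((G.filter bad).card : ℝ) := by positivity
    nlinarith
  have t2 : ((P ∪ Q).card : ℝ) * (4 * Real.log n) ≤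
      8 * ε * n + 4 * (Q.card : ℝ) * Real.log n := by
    have : ((P ∪ Q).card : ℝ) * (4 * Real.log n) ≤
        ((P.card : ℝ) + (Q.card : ℝ)) * (4 * Real.log n) :=
      mul_le_mul_of_nonneg_right hcardU (by positivity)
    nlinarith [hp]
  linarith

end Pool.Agent.IrrPairs
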