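import Pool.Agent.IrrPairs.Defs
import Pool.Agent.IrrPairs.RowA

set_option autoImplicit false

/-!
Incidences of one prime (MP_4a79a0_nt, row G).
-/

namespace Pool.Agent.IrrPairs

open Finset Filter

theorem incidence_of
    (kum : ∀ (q : ℕ), q.Prime → 5 ≤ q → ∀ k : ℕ, 1 ≤ k → ¬ q ∣ k →
      (q : ℤ) ∣ (bernoulli (2 * k)).num →
      ∃ l : ℕ, 1 ≤ l ∧ l ≤ (q - 3) / 2 ∧ k ≡ l [MOD ((q - 1) / 2)] ∧
        (q : ℤ) ∣ (bernoulli (2 * l)).num)
    (q : ℕ) (hq : q.Prime) (h5 : 5 ≤ q) (m : ℕ) (G : Finset ℕ)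
    (hG : G ⊆ Finset.Icc 1 m)
    (hd : ∀ k ∈ G, ¬ q ∣ k ∧ (q : ℤ) ∣ (bernoulli (2 * k)).num) :
    G.card ≤ irr q * (2 * m / (q - 1) + 1) := by
  classical
  have hodd : q % 2 = 1 := by
    rcases hq.eq_two_or_odd with h | h
    · omega
    · exact h
  obtain ⟨a, ha⟩ : ∃ a, q = 2 * a + 1 := ⟨q / 2, by omega⟩
  have ha2 : 2 ≤ a := by omega
  have h1 : (q - 1) / 2 = a := by omega
  have h2 : (q - 3) / 2 = a - 1 := by omega
  have h3 : q - 1 = 2 * a := by omega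
  let S : Finset ℕ := (Finset.Icc 1 ((q - 3) / 2)).filter
    (fun k : ℕ => (q : ℤ) ∣ (bernoulli (2 * k)).num)
  have hS : S.card = irr q := rfl
  have hmap : ∀ k ∈ G, (k % a, k / a) ∈ S ×ˢ Finset.range (2 * m / (q - 1) + 1) := by
    intro k hk
    have hk1 := Finset.mem_Icc.1 (hG hk)
    obtain ⟨l, hl1, hl2, hl3, hl4⟩ := kum q hq h5 k hk1.1 (hd k hk).1 (hd k hk).2
    rw [h1] at hl3
    have hla : l < a := by omega
    have hka : k % a = l := by
      have := hl3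
      unfold Nat.ModEq at this
      rwa [Nat.mod_eq_of_lt hla] at this
    rw [Finset.mem_product]
    refine ⟨?_, ?_⟩
    · change k % a ∈ S
      rw [hka]
      exact Finset.mem_filter.2 ⟨Finset.mem_Icc.2 ⟨hl1, hl2⟩, hl4⟩
    · change k / a ∈ Finset.range (2 * m / (q - 1) + 1)
      rw [Finset.mem_range, h3, Nat.mul_div_mul_left _ _ (by norm_num : 0 < 2)]
      have := Nat.div_le_div_right (c := a) hk1.2
      omega
  have hinj : Set.InjOn (fun k : ℕ => (k % a, k / a)) (G : Set ℕ) := by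
    intro k _ k' _ h
    simp only [Prod.mk.injEq] at h
    rw [← Nat.mod_add_div k a, ← Nat.mod_add_div k' a, h.1, h.2]
  calc G.card ≤ (S ×ˢ Finset.range (2 * m / (q - 1) + 1)).card :=
        Finset.card_le_card_of_injOn _ hmap hinj
    _ = irr q * (2 * m / (q - 1) + 1) := by
        rw [Finset.card_product, Finset.card_range, hS]

theorem incidence (q : ℕ) (hq : q.Prime) (h5 : 5 ≤ q) (m : ℕ) (G : Finset ℕ)
    (hG : G ⊆ Finset.Icc 1 m)
    (hd : ∀ k ∈ G, ¬ q ∣ k ∧ (q : ℤ) ∣ (bernoulli (2 * k)).num) :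
    G.card ≤ irr q * (2 * m / (q - 1) + 1) :=
  incidence_of (fun q hq h5 k hk hqk hdiv => kummer q hq h5 k hk hqk hdiv) q hq h5 m G hG hd

end Pool.Agent.IrrPairs
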