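import Pool.Agent.IrrPairs.RowA
import Pool.Agent.IrrPairs.RowF
import Pool.Agent.IrrPairs.RowG

set_option autoImplicit false

namespace Pool.Agent.IrrPairs

open Finset Filter

theorem irr_pos_of_dvd (q k : ℕ) (hq : q.Prime) (h5 : 5 ≤ q) (hk : 1 ≤ k) (hqk : ¬ q ∣ k)
    (hd : (q : ℤ) ∣ (bernoulli (2 * k)).num) : 1 ≤ irr q := by
  obtain ⟨l, h1, h2, -, h4⟩ := kummer q hq h5 k hk hqk hd
  unfold irr
  rw [Nat.one_le_iff_ne_zero, Ne, Finset.card_eq_zero]
  intro he
  have : l ∈ ((Finset.Icc 1 ((q - 3) / 2)).filter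
      (fun k : ℕ => (q : ℤ) ∣ (bernoulli (2 * k)).num)) := by
    rw [Finset.mem_filter, Finset.mem_Icc]
    exact ⟨⟨h1, h2⟩, h4⟩
  rw [he] at this
  simp at this

theorem le_of_dvd_num (q k n : ℕ) (hk : 1 ≤ k) (hkn : k ≤ n)
    (hd : (q : ℤ) ∣ (bernoulli (2 * k)).num) : q ≤ 16 * (2 * n).factorial := by
  have h0 : (bernoulli (2 * k)).num ≠ 0 := by
    rw [Ne, Rat.num_eq_zero]
    exact bernoulli_two_mul_ne_zero k
  have h1 : q ∣ (bernoulli (2 * k)).num.natAbs := by
    rwa [← Int.natCast_dvd]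
  have h2 := Nat.le_of_dvd (Int.natAbs_pos.mpr h0) h1
  calc q ≤ (bernoulli (2 * k)).num.natAbs := h2
    _ ≤ 16 * (2 * k).factorial := num_le k hk
    _ ≤ 16 * (2 * n).factorial := by
        apply Nat.mul_le_mul_left
        exact Nat.factorial_le (by omega)

/-- Counting of indices through their primes. -/
theorem count_le_sum (m : ℕ) (V P : Finset ℕ) (hV : V ⊆ Finset.Icc 1 m)
    (hP : ∀ q ∈ P, q.Prime ∧ 5 ≤ q)
    (h : ∀ k ∈ V, ∃ q ∈ P, ¬ q ∣ k ∧ (q : ℤ) ∣ (bernoulli (2 * k)).num) :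
    V.card ≤ ∑ q ∈ P, irr q * (2 * m / (q - 1) + 1) := by
  classical
  have hsub : V ⊆ P.biUnion (fun q => V.filter
      (fun k => ¬ q ∣ k ∧ (q : ℤ) ∣ (bernoulli (2 * k)).num)) := by
    intro k hk
    obtain ⟨q, hq, h1⟩ := h k hk
    rw [Finset.mem_biUnion]
    exact ⟨q, hq, Finset.mem_filter.mpr ⟨hk, h1⟩⟩
  refine (Finset.card_le_card hsub).trans (Finset.card_biUnion_le.trans ?_)
  apply Finset.sum_le_sum
  intro q hq
  obtain ⟨h1, h2⟩ := hP q hq
  exact incidence q h1 h2 m _ ((Finset.filter_subset _ _).trans hV)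
    (fun k hk => (Finset.mem_filter.mp hk).2)

/-- The irregular primes up to `X`. -/
def irrPrimes (X : ℕ) : Finset ℕ :=
  (Finset.Icc 1 X).filter (fun q => q.Prime ∧ 1 ≤ irr q)

/-- H3 in terms of `n`. -/
theorem irrPrimes_lower :
    ∀ᶠ n : ℕ in atTop, (n : ℝ) / 16 ≤
      ((irrPrimes (16 * (2 * n + 2).factorial)).card : ℝ) * Real.log n := by
  have hb := bad_count (1 / 64) (by norm_num) 1 (1 / 8) (by norm_num)
  have hc := core 1 le_rfl (1 / 64) (by norm_num) (1 / 8) (by norm_num)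
  filter_upwards [hb, hc, eventually_ge_atTop 400] with n hb hc hn
  classical
  set bad : ℕ → Prop := fun k => ∃ q : ℕ, q.Prime ∧ (1 / 64 : ℝ) * (n : ℝ) < (q : ℝ) ∧
        ((∃ j ∈ Finset.Icc 0 (2 * 1), q ∣ 2 * k + j) ∨ (q - 1) ∣ 2 * k ∨
          (q - 1) ∣ 2 * (k + 1)) with hbad
  set G : Finset ℕ := (Finset.Icc 1 n).filter (fun k => ¬ bad k) with hG
  have hsplit : (Finset.Icc 1 n).card = ((Finset.Icc 1 n).filter bad).card + G.card :=
    (Finset.card_filter_add_card_filter_not bad).symm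
  have hb1 : (((Finset.Icc 1 n).filter bad).card : ℝ) ≤ 1 / 8 * n :=
    hb _ (Finset.filter_subset _ _) (fun k hk => (Finset.mem_filter.mp hk).2)
  have hcard : (n : ℝ) = (((Finset.Icc 1 n).filter bad).card : ℝ) + (G.card : ℝ) := by
    have : n = ((Finset.Icc 1 n).filter bad).card + G.card := by
      rw [← hsplit, Nat.card_Icc]; omega
    exact_mod_cast this
  have hn0 : (400 : ℝ) ≤ n := by exact_mod_cast hn
  have key := hc G (irrPrimes (16 * (2 * n + 2).factorial)) (Finset.filter_subset _ _) (by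
    intro k hk q hqp hqn hqQ
    rw [hG, Finset.mem_filter, Finset.mem_Icc] at hk
    obtain ⟨⟨hk1, hkn⟩, hkb⟩ := hk
    have hnb : ¬ ((∃ j ∈ Finset.Icc 0 (2 * 1), q ∣ 2 * k + j) ∨ (q - 1) ∣ 2 * k ∨
          (q - 1) ∣ 2 * (k + 1)) := fun hcon => hkb ⟨q, hqp, hqn, hcon⟩
    push Not at hnb
    obtain ⟨n1, n2, n3⟩ := hnb
    have hq5 : 5 ≤ q := by
      have : (5 : ℝ) < (q : ℝ) := by linarith
      have h5 : 5 < q := by exact_mod_cast this
      omega
    have main : ∀ m : ℕ, 1 ≤ m → m ≤ n + 1 → ¬ q ∣ m →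
        ¬ (q : ℤ) ∣ (bernoulli (2 * m)).num := by
      intro m hm1 hmn hqm hd
      apply hqQ
      unfold irrPrimes
      rw [Finset.mem_filter, Finset.mem_Icc]
      refine ⟨⟨hqp.one_lt.le, ?_⟩, hqp, irr_pos_of_dvd q m hqp hq5 hm1 hqm hd⟩
      have := le_of_dvd_num q m (n + 1) hm1 hmn hd
      rwa [mul_add, mul_one] at this
    refine ⟨main k hk1 (by omega) (fun hd => n1 0 (by simp) ?_),
      main (k + 1) (by omega) (by omega) (fun hd => n1 2 (by simp) ?_)⟩
    · simpa using hd.mul_left 2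
    · have := hd.mul_left 2
      rwa [mul_add, mul_one] at this)
  have hlog2 : (0.69 : ℝ) ≤ Real.log 2 := by
    have := Real.log_two_gt_d9
    linarith
  have hG0 : (7 / 8 : ℝ) * n ≤ (G.card : ℝ) := by linarith
  nlinarith [mul_le_mul_of_nonneg_right hG0 (by linarith : (0 : ℝ) ≤ Real.log 2)]

/-- The primes up to `X` that are at least `a` (and at least `5`). -/
def primesFrom (a X : ℕ) : Finset ℕ :=
  (Finset.Icc 1 X).filter (fun q => q.Prime ∧ 5 ≤ q ∧ a ≤ q)

/-- The total index of irregularity of the primes up to `X`. -/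
def totalIrr (X : ℕ) : ℕ :=
  ∑ q ∈ (Finset.Icc 1 X).filter Nat.Prime, irr q

theorem sum_primesFrom_le (a X : ℕ) : ∑ q ∈ primesFrom a X, irr q ≤ totalIrr X := by
  unfold totalIrr primesFrom
  apply Finset.sum_le_sum_of_subset
  intro q hq
  rw [Finset.mem_filter] at hq ⊢
  exact ⟨hq.1, hq.2.1⟩

/-- H1 in terms of `n`. -/
theorem totalIrr_lower :
    ∀ᶠ n : ℕ in atTop, (n : ℝ) / 4096 ≤ (totalIrr (16 * (2 * n + 2).factorial) : ℝ) := by
  have hb := bad_count (1 / 64) (by norm_num) 1 (1 / 16) (by norm_num)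
  have hc := core 1 le_rfl (1 / 64) (by norm_num) (1 / 16) (by norm_num)
  filter_upwards [hb, hc, eventually_ge_atTop 4000] with n hb hc hn
  classical
  have hn0 : (4000 : ℝ) ≤ n := by exact_mod_cast hn
  set t : ℕ → Prop := fun k => ∃ q : ℕ, q.Prime ∧ (1 / 64 : ℝ) * (n : ℝ) < (q : ℝ) ∧
    (q : ℤ) ∣ (bernoulli (2 * k)).num with ht
  -- indices without a large prime in either numerator
  set G : Finset ℕ := (Finset.Icc 1 n).filter (fun k => ¬ t k ∧ ¬ t (k + 1)) with hG
  have hlog2 : (0.69 : ℝ) ≤ Real.log 2 := by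
    have := Real.log_two_gt_d9
    linarith
  have hG1 : (G.card : ℝ) ≤ 0.28 * n := by
    have := hc G ∅ (Finset.filter_subset _ _) (by
      intro k hk q hqp hqn _
      rw [hG, Finset.mem_filter] at hk
      exact ⟨fun hd => hk.2.1 ⟨q, hqp, hqn, hd⟩, fun hd => hk.2.2 ⟨q, hqp, hqn, hd⟩⟩)
    simp only [Finset.card_empty, Nat.cast_zero, mul_zero, zero_mul, add_zero] at this
    have h0 : (0 : ℝ) ≤ (G.card : ℝ) := by positivity
    nlinarith
  -- indices with a large prime
  set T : Finset ℕ := (Finset.Icc 1 (n + 1)).filter t with hT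
  have hcov : n ≤ G.card + 2 * T.card := by
    have h1 : Finset.Icc 1 n ⊆ G ∪ (T ∪ T.image (fun k => k - 1)) := by
      intro k hk
      rw [Finset.mem_Icc] at hk
      rw [Finset.mem_union, Finset.mem_union]
      by_cases h1 : t k
      · right; left
        rw [hT, Finset.mem_filter, Finset.mem_Icc]
        exact ⟨⟨hk.1, by omega⟩, h1⟩
      · by_cases h2 : t (k + 1)
        · right; right
          rw [Finset.mem_image]
          refine ⟨k + 1, ?_, by omega⟩
          rw [hT, Finset.mem_filter, Finset.mem_Icc]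
          exact ⟨⟨by omega, by omega⟩, h2⟩
        · left
          rw [hG, Finset.mem_filter, Finset.mem_Icc]
          exact ⟨hk, h1, h2⟩
    have h2 := Finset.card_le_card h1
    rw [Nat.card_Icc] at h2
    have h3 := Finset.card_union_le G (T ∪ T.image (fun k => k - 1))
    have h4 := Finset.card_union_le T (T.image (fun k => k - 1))
    have h5 : (T.image (fun k => k - 1)).card ≤ T.card := Finset.card_image_le
    omega
  have hcovR : (n : ℝ) ≤ (G.card : ℝ) + 2 * (T.card : ℝ) := by exact_mod_cast hcov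
  -- split T
  set b : ℕ → Prop := fun k => ∃ q : ℕ, q.Prime ∧ (1 / 64 : ℝ) * (n : ℝ) < (q : ℝ) ∧ q ∣ k
    with hbdef
  set T1 : Finset ℕ := T.filter b with hT1
  set V : Finset ℕ := T.filter (fun k => ¬ b k) with hV
  have hsplit : T.card = T1.card + V.card := (Finset.card_filter_add_card_filter_not b).symm
  have hT1c : (T1.card : ℝ) ≤ 1 / 16 * n + 1 := by
    have h1 : (((T1.erase (n + 1)).card : ℕ) : ℝ) ≤ 1 / 16 * n := by
      apply hb
      · intro k hk
        rw [Finset.mem_erase, hT1, Finset.mem_filter, hT, Finset.mem_filter,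
          Finset.mem_Icc] at hk
        rw [Finset.mem_Icc]
        omega
      · intro k hk
        rw [Finset.mem_erase, hT1, Finset.mem_filter] at hk
        obtain ⟨q, hq1, hq2, hq3⟩ := hk.2.2
        refine ⟨q, hq1, hq2, Or.inl ⟨0, by simp, ?_⟩⟩
        simpa using hq3.mul_left 2
    have h2 : T1.card ≤ (T1.erase (n + 1)).card + 1 := by
      have := Finset.pred_card_le_card_erase (s := T1) (a := n + 1)
      omega
    have h3 : (T1.card : ℝ) ≤ ((T1.erase (n + 1)).card : ℝ) + 1 := by exact_mod_cast h2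
    linarith
  have hVc : V.card ≤ 513 * totalIrr (16 * (2 * n + 2).factorial) := by
    have h1 := count_le_sum (n + 1) V ((primesFrom 0 (16 * (2 * n + 2).factorial)).filter
        (fun q : ℕ => (1 / 64 : ℝ) * (n : ℝ) < (q : ℝ)))
      (by
        intro k hk
        rw [hV, Finset.mem_filter, hT, Finset.mem_filter] at hk
        exact hk.1.1)
      (by
        intro q hq
        rw [Finset.mem_filter] at hq
        unfold primesFrom at hq
        rw [Finset.mem_filter] at hq
        exact ⟨hq.1.2.1, hq.1.2.2.1⟩)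
      (by
        intro k hk
        rw [hV, Finset.mem_filter, hT, Finset.mem_filter, Finset.mem_Icc] at hk
        obtain ⟨⟨⟨hk1, hk2⟩, q, hqp, hqn, hqd⟩, hkb⟩ := hk
        have hq5 : 5 ≤ q := by
          have : (5 : ℝ) < (q : ℝ) := by linarith
          have h5 : 5 < q := by exact_mod_cast this
          omega
        refine ⟨q, ?_, fun hd => hkb ⟨q, hqp, hqn, hd⟩, hqd⟩
        rw [Finset.mem_filter]
        unfold primesFrom
        rw [Finset.mem_filter, Finset.mem_Icc]
        have := le_of_dvd_num q k (n + 1) hk1 hk2 hqd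
        rw [mul_add, mul_one] at this
        exact ⟨⟨⟨hqp.one_lt.le, this⟩, hqp, hq5, Nat.zero_le _⟩, hqn⟩)
    refine h1.trans ?_
    calc ∑ q ∈ ((primesFrom 0 (16 * (2 * n + 2).factorial)).filter
        (fun q : ℕ => (1 / 64 : ℝ) * (n : ℝ) < (q : ℝ))), irr q * (2 * (n + 1) / (q - 1) + 1)
        ≤ ∑ q ∈ ((primesFrom 0 (16 * (2 * n + 2).factorial)).filter
        (fun q : ℕ => (1 / 64 : ℝ) * (n : ℝ) < (q : ℝ))), 513 * irr q := by
          apply Finset.sum_le_sum
          intro q hq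
          rw [Finset.mem_filter] at hq
          have hqn : (n : ℝ) < 64 * (q : ℝ) := by linarith [hq.2]
          have hqn' : n < 64 * q := by exact_mod_cast hqn
          have : 2 * (n + 1) / (q - 1) ≤ 512 := by
            apply Nat.div_le_of_le_mul
            have : 64 * q = 64 * (q - 1) + 64 := by omega
            omega
          calc irr q * (2 * (n + 1) / (q - 1) + 1) ≤ irr q * 513 :=
                Nat.mul_le_mul_left _ (by omega)
            _ = 513 * irr q := mul_comm _ _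
      _ = 513 * ∑ q ∈ ((primesFrom 0 (16 * (2 * n + 2).factorial)).filter
        (fun q : ℕ => (1 / 64 : ℝ) * (n : ℝ) < (q : ℝ))), irr q := by rw [Finset.mul_sum]
      _ ≤ 513 * ∑ q ∈ primesFrom 0 (16 * (2 * n + 2).factorial), irr q := by
          apply Nat.mul_le_mul_left
          exact Finset.sum_le_sum_of_subset (Finset.filter_subset _ _)
      _ ≤ 513 * totalIrr (16 * (2 * n + 2).factorial) :=
          Nat.mul_le_mul_left _ (sum_primesFrom_le _ _)
  have hVR : (V.card : ℝ) ≤ 513 * (totalIrr (16 * (2 * n + 2).factorial) : ℝ) := by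
    exact_mod_cast hVc
  have hsR : (T.card : ℝ) = (T1.card : ℝ) + (V.card : ℝ) := by exact_mod_cast hsplit
  nlinarith

end Pool.Agent.IrrPairs
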