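import Pool.Agent.IrrPairs.Defs

set_option autoImplicit false

/-!
Row J of the project on irregular pairs (MP_4a79a0_nt): a set of integers in `[1, n]` has at most
`n / H + 1` elements without a successor at distance less than `H`.
-/

namespace Pool.Agent.IrrPairs

open Finset

/-- Elements of `U` without a successor in `U` at distance less than `H` are at most `n / H + 1`
in number; all others are counted by the sum. -/
theorem card_le_sep (n H : ℕ) (hH : 1 ≤ H) (U : Finset ℕ) (hU : U ⊆ Finset.Icc 1 n) :
    U.card ≤ (n / H + 1) + ∑ h ∈ Finset.Icc 1 (H - 1), (U.filter (fun k => k + h ∈ U)).card := by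
  classical
  set A : Finset ℕ := (Finset.Icc 1 (H - 1)).biUnion
    (fun h => U.filter (fun k => k + h ∈ U)) with hA
  have h1 : A.card ≤ ∑ h ∈ Finset.Icc 1 (H - 1), (U.filter (fun k => k + h ∈ U)).card :=
    Finset.card_biUnion_le
  have h2 : (U \ A).card ≤ n / H + 1 := by
    have hmap : ∀ k ∈ U \ A, k / H ∈ Finset.range (n / H + 1) := by
      intro k hk
      have hkU : k ∈ U := (Finset.mem_sdiff.mp hk).1
      have hkn : k ≤ n := (Finset.mem_Icc.mp (hU hkU)).2
      exact Finset.mem_range.mpr (Nat.lt_succ_of_le (Nat.div_le_div_right hkn))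
    have key : ∀ k ∈ U \ A, ∀ k' ∈ U, k < k' → k / H = k' / H → False := by
      intro k hk k' hk' hlt heq
      have hkU : k ∈ U := (Finset.mem_sdiff.mp hk).1
      have hkA : k ∉ A := (Finset.mem_sdiff.mp hk).2
      apply hkA
      have e1 : H * (k / H) + k % H = k := Nat.div_add_mod k H
      have e2 : H * (k' / H) + k' % H = k' := Nat.div_add_mod k' H
      have m2 : k' % H < H := Nat.mod_lt _ hH
      rw [← heq] at e2
      have hd : k' - k ≤ H - 1 := by omega
      have hd1 : 1 ≤ k' - k := by omega
      rw [hA]
      refine Finset.mem_biUnion.mpr ⟨k' - k, Finset.mem_Icc.mpr ⟨hd1, hd⟩, ?_⟩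
      refine Finset.mem_filter.mpr ⟨hkU, ?_⟩
      have : k + (k' - k) = k' := by omega
      rw [this]
      exact hk'
    have hinj : Set.InjOn (fun k : ℕ => k / H) ((U \ A : Finset ℕ) : Set ℕ) := by
      intro k hk k' hk' heq
      have hk2 : k ∈ U \ A := by simpa using hk
      have hk2' : k' ∈ U \ A := by simpa using hk'
      rcases lt_trichotomy k k' with h | h | h
      · exact (key k hk2 k' (Finset.mem_sdiff.mp hk2').1 h heq).elim
      · exact h
      · exact (key k' hk2' k (Finset.mem_sdiff.mp hk2).1 h heq.symm).elim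
    calc (U \ A).card ≤ (Finset.range (n / H + 1)).card :=
          Finset.card_le_card_of_injOn (fun k => k / H) hmap hinj
      _ = n / H + 1 := Finset.card_range _
  have h3 : U.card ≤ (U \ A).card + A.card := by
    calc U.card ≤ ((U \ A) ∪ A).card := Finset.card_le_card (by
          intro x hx
          by_cases hxA : x ∈ A
          · exact Finset.mem_union_right _ hxA
          · exact Finset.mem_union_left _ (Finset.mem_sdiff.mpr ⟨hx, hxA⟩))
      _ ≤ (U \ A).card + A.card := Finset.card_union_le _ _
  omega

end Pool.Agent.IrrPairs
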