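import Pool.Agent.IrrPairs.RowH
import Pool.Agent.IrrPairs.RowJ

set_option autoImplicit false

namespace Pool.Agent.IrrPairs

open Finset Filter

/-- For every `η > 0` there is `ε > 0` such that for all large `n` and every set `B` with
`|B| log n ≤ ε n`, all but `η n` of the indices `k ≤ n` have a prime `q > ε n` outside `B`
dividing the numerator of `B_{2k}`. -/
theorem almost_all_large_prime_outside (η : ℝ) (hη : 0 < η) :
    ∃ ε : ℝ, 0 < ε ∧ ∀ᶠ n : ℕ in atTop, ∀ U B : Finset ℕ, U ⊆ Finset.Icc 1 n →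
      (B.card : ℝ) * Real.log n ≤ ε * n →
      (∀ k ∈ U, ∀ q : ℕ, q.Prime → ε * (n : ℝ) < (q : ℝ) → q ∉ B →
        ¬ (q : ℤ) ∣ (bernoulli (2 * k)).num) →
      (U.card : ℝ) ≤ η * n := by
  obtain ⟨H, hH⟩ := exists_nat_gt (4 / η)
  have hH0 : (0 : ℝ) < H := lt_trans (by positivity) hH
  have hH1 : 1 ≤ H := by
    have : 0 < H := by exact_mod_cast hH0
    omega
  set ε : ℝ := η / (128 * H) with hε
  have hε0 : 0 < ε := by positivity
  refine ⟨ε, hε0, ?_⟩
  have hall : ∀ᶠ n : ℕ in atTop, ∀ h ∈ Finset.Icc 1 (H - 1), ∀ G Q : Finset ℕ,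
      G ⊆ Finset.Icc 1 n →
      (∀ k ∈ G, ∀ q : ℕ, q.Prime → ε * (n : ℝ) < (q : ℝ) → q ∉ Q →
        ¬ (q : ℤ) ∣ (bernoulli (2 * k)).num ∧
        ¬ (q : ℤ) ∣ (bernoulli (2 * (k + h))).num) →
      (G.card : ℝ) * Real.log 2 ≤ ε * n + 8 * ε * n + 4 * (Q.card : ℝ) * Real.log n := by
    rw [Filter.eventually_all_finset]
    intro h hh
    exact core h (Finset.mem_Icc.mp hh).1 ε hε0 ε hε0
  have hbig : ∀ᶠ n : ℕ in atTop, (1 : ℝ) ≤ η / 4 * n := by
    have : Tendsto (fun n : ℕ => η / 4 * (n : ℝ)) atTop atTop :=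
      Tendsto.const_mul_atTop (by positivity) tendsto_natCast_atTop_atTop
    exact this.eventually (eventually_ge_atTop 1)
  filter_upwards [hall, hbig] with n hall hbig U B hU hB hUq
  have hn0 : (0 : ℝ) ≤ n := Nat.cast_nonneg n
  have hsep := card_le_sep n H hH1 U hU
  have hlog2 : (0.69 : ℝ) ≤ Real.log 2 := by
    have := Real.log_two_gt_d9
    linarith
  have hterm : ∀ h ∈ Finset.Icc 1 (H - 1),
      (((U.filter (fun k => k + h ∈ U)).card : ℕ) : ℝ) ≤ 32 * ε * n := by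
    intro h hh
    have h1 := hall h hh (U.filter (fun k => k + h ∈ U)) B
      ((Finset.filter_subset _ _).trans hU) (by
        intro k hk q hqp hqn hqB
        rw [Finset.mem_filter] at hk
        exact ⟨hUq k hk.1 q hqp hqn hqB, hUq (k + h) hk.2 q hqp hqn hqB⟩)
    have h0 : (0 : ℝ) ≤ (((U.filter (fun k => k + h ∈ U)).card : ℕ) : ℝ) := by positivity
    have h2 : 0 ≤ ε * n := by positivity
    nlinarith
  have hsum : ((∑ h ∈ Finset.Icc 1 (H - 1), (U.filter (fun k => k + h ∈ U)).card : ℕ) : ℝ)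
      ≤ η / 4 * n := by
    push_cast
    calc ∑ h ∈ Finset.Icc 1 (H - 1), (((U.filter (fun k => k + h ∈ U)).card : ℕ) : ℝ)
        ≤ ∑ _h ∈ Finset.Icc 1 (H - 1), 32 * ε * n := Finset.sum_le_sum hterm
      _ = ((H - 1 : ℕ) : ℝ) * (32 * ε * n) := by
          rw [Finset.sum_const, Nat.card_Icc, nsmul_eq_mul]
          simp
      _ ≤ (H : ℝ) * (32 * ε * n) := by
          apply mul_le_mul_of_nonneg_right _ (by positivity)
          exact_mod_cast Nat.sub_le H 1
      _ = η / 4 * n := by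
          rw [hε]; field_simp; ring
  have hdiv : ((n / H : ℕ) : ℝ) ≤ η / 4 * n := by
    have h1 : ((n / H : ℕ) : ℝ) ≤ (n : ℝ) / H := Nat.cast_div_le
    refine h1.trans ?_
    rw [div_le_iff₀ hH0]
    have h2 : 1 ≤ η / 4 * H := by
      rw [div_lt_iff₀ hη] at hH
      linarith
    nlinarith
  have hsepR : (U.card : ℝ) ≤ (((n / H : ℕ) : ℝ) + 1) +
      ((∑ h ∈ Finset.Icc 1 (H - 1), (U.filter (fun k => k + h ∈ U)).card : ℕ) : ℝ) := by
    exact_mod_cast hsep
  linarith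

/-- The primes up to `X` whose index of irregularity is at least `s`. -/
def bigIndex (s X : ℕ) : Finset ℕ :=
  (Finset.Icc 1 X).filter (fun q => q.Prime ∧ s ≤ irr q)

/-- The primes up to `X` whose index of irregularity is at most `s`. -/
def smallIndex (s X : ℕ) : Finset ℕ :=
  (Finset.Icc 1 X).filter (fun q => q.Prime ∧ irr q ≤ s)

/-- The dichotomy in terms of `n`, on the level of indices. -/
theorem dichotomy_set (η : ℝ) (hη : 0 < η) :
    ∃ κ : ℝ, 0 < κ ∧ ∀ s : ℕ, ∀ᶠ n : ℕ in atTop,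
      κ * (n : ℝ) ≤ ((bigIndex (s + 1) (16 * (2 * n + 2).factorial)).card : ℝ) * Real.log n ∨
      ∃ W : Finset ℕ, W ⊆ Finset.Icc 1 n ∧ (1 - η) * (n : ℝ) ≤ (W.card : ℝ) ∧
        ∀ k ∈ W, ∃ q : ℕ, q.Prime ∧ 2 * n + 3 ≤ q ∧ 5 ≤ q ∧ irr q ≤ s ∧
          q ≤ 16 * (2 * n + 2).factorial ∧ ¬ q ∣ k ∧ (q : ℤ) ∣ (bernoulli (2 * k)).num := by
  obtain ⟨ε, hε0, hal⟩ := almost_all_large_prime_outside (η / 4) (by positivity)
  refine ⟨ε, hε0, ?_⟩
  intro s
  have hb := bad_count ε hε0 0 (η / 4) (by positivity)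
  -- the bound for the number of primes up to 2n+2
  obtain ⟨C, hC⟩ := exists_nat_gt (8 / ε)
  have hpr := primes_small 3 (η / (4 * ((s : ℝ) * (C + 1) + 1))) (by positivity)
  have h5n : ∀ᶠ n : ℕ in atTop, (5 : ℝ) < ε * n := by
    have : Tendsto (fun n : ℕ => ε * (n : ℝ)) atTop atTop :=
      Tendsto.const_mul_atTop hε0 tendsto_natCast_atTop_atTop
    exact this.eventually (eventually_gt_atTop _)
  filter_upwards [hal, hb, hpr, h5n, eventually_ge_atTop 4] with n hal hb hpr h5n hn4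
  classical
  set B : Finset ℕ := bigIndex (s + 1) (16 * (2 * n + 2).factorial) with hBdef
  by_cases hBc : ε * (n : ℝ) ≤ (B.card : ℝ) * Real.log n
  · exact Or.inl hBc
  right
  push Not at hBc
  have hn0 : (0 : ℝ) ≤ n := Nat.cast_nonneg n
  have hsmall : ∀ q : ℕ, q.Prime → q ≤ 16 * (2 * n + 2).factorial → q ∉ B → irr q ≤ s := by
    intro q hqp hqX hqB
    by_contra hcon
    apply hqB
    rw [hBdef]
    unfold bigIndex
    rw [Finset.mem_filter, Finset.mem_Icc]
    exact ⟨⟨hqp.one_lt.le, hqX⟩, hqp, by omega⟩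
  set t : ℕ → Prop := fun k => ∃ q : ℕ, q.Prime ∧ ε * (n : ℝ) < (q : ℝ) ∧ q ∉ B ∧
    (q : ℤ) ∣ (bernoulli (2 * k)).num with ht
  set U : Finset ℕ := (Finset.Icc 1 n).filter (fun k => ¬ t k) with hU
  set T : Finset ℕ := (Finset.Icc 1 n).filter t with hT
  have hTU : (Finset.Icc 1 n).card = T.card + U.card :=
    (Finset.card_filter_add_card_filter_not t).symm
  have hUc : (U.card : ℝ) ≤ η / 4 * n := hal U B (Finset.filter_subset _ _) hBc.le (by
    intro k hk q hqp hqn hqB hd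
    rw [hU, Finset.mem_filter] at hk
    exact hk.2 ⟨q, hqp, hqn, hqB, hd⟩)
  set b : ℕ → Prop := fun k => ∃ q : ℕ, q.Prime ∧ ε * (n : ℝ) < (q : ℝ) ∧ q ∣ k with hbdef
  set T1 : Finset ℕ := T.filter b with hT1
  set T2 : Finset ℕ := T.filter (fun k => ¬ b k) with hT2
  have hT12 : T.card = T1.card + T2.card := (Finset.card_filter_add_card_filter_not b).symm
  have hT1c : (T1.card : ℝ) ≤ η / 4 * n := by
    apply hb
    · intro k hk
      rw [hT1, Finset.mem_filter, hT, Finset.mem_filter] at hk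
      exact hk.1.1
    · intro k hk
      rw [hT1, Finset.mem_filter] at hk
      obtain ⟨q, hq1, hq2, hq3⟩ := hk.2
      refine ⟨q, hq1, hq2, Or.inl ⟨0, by simp, ?_⟩⟩
      simpa using hq3.mul_left 2
  set c : ℕ → Prop := fun k => ∃ q : ℕ, q.Prime ∧ ε * (n : ℝ) < (q : ℝ) ∧ q ∉ B ∧
    q ≤ 2 * n + 2 ∧ (q : ℤ) ∣ (bernoulli (2 * k)).num with hc
  set V : Finset ℕ := T2.filter c with hV
  set W : Finset ℕ := T2.filter (fun k => ¬ c k) with hW
  have hT2c : T2.card = V.card + W.card := (Finset.card_filter_add_card_filter_not c).symm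
  have hXn : 2 * n + 2 ≤ 16 * (2 * n + 2).factorial := by
    have := Nat.self_le_factorial (2 * n + 2)
    omega
  have hVc : (V.card : ℝ) ≤ η / 4 * n := by
    set PP : Finset ℕ := (primesFrom 0 (2 * n + 2)).filter
        (fun q : ℕ => ε * (n : ℝ) < (q : ℝ) ∧ q ∉ B) with hPP
    have h1 := count_le_sum n V PP
      (by
        intro k hk
        rw [hV, Finset.mem_filter, hT2, Finset.mem_filter, hT, Finset.mem_filter] at hk
        exact hk.1.1.1)
      (by
        intro q hq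
        rw [hPP, Finset.mem_filter] at hq
        unfold primesFrom at hq
        rw [Finset.mem_filter] at hq
        exact ⟨hq.1.2.1, hq.1.2.2.1⟩)
      (by
        intro k hk
        rw [hV, Finset.mem_filter, hT2, Finset.mem_filter] at hk
        obtain ⟨⟨-, hkb⟩, q, hqp, hqn, hqB, hqle, hqd⟩ := hk
        refine ⟨q, ?_, fun hd => hkb ⟨q, hqp, hqn, hd⟩, hqd⟩
        rw [hPP, Finset.mem_filter]
        unfold primesFrom
        rw [Finset.mem_filter, Finset.mem_Icc]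
        have h5q : (5 : ℝ) < (q : ℝ) := by linarith
        have h5q' : 5 < q := by exact_mod_cast h5q
        exact ⟨⟨⟨hqp.one_lt.le, hqle⟩, hqp, by omega, by omega⟩, hqn, hqB⟩)
    have h2 : ∑ q ∈ PP, irr q * (2 * n / (q - 1) + 1) ≤ ∑ _q ∈ PP, s * (C + 1) := by
      apply Finset.sum_le_sum
      intro q hq
      rw [hPP, Finset.mem_filter] at hq
      unfold primesFrom at hq
      rw [Finset.mem_filter, Finset.mem_Icc] at hq
      obtain ⟨⟨⟨-, hqle⟩, hqp, hq5, -⟩, hqn, hqB⟩ := hq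
      apply Nat.mul_le_mul (hsmall q hqp (hqle.trans hXn) hqB)
      apply Nat.add_le_add_right
      apply Nat.div_le_of_le_mul
      have hq5' : (5 : ℝ) ≤ (q : ℝ) := by exact_mod_cast hq5
      have e1 : ((q - 1 : ℕ) : ℝ) = (q : ℝ) - 1 := by
        rw [Nat.cast_sub hqp.one_lt.le]; simp
      have e2 : (2 * (n : ℝ)) ≤ ((q - 1 : ℕ) : ℝ) * C := by
        rw [e1]
        rw [div_lt_iff₀ hε0] at hC
        have e3 : (q : ℝ) / 2 ≤ (q : ℝ) - 1 := by linarith
        have e4 : 0 ≤ (C : ℝ) := Nat.cast_nonneg C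
        have e5 : ε * n * C ≤ (q : ℝ) * C := mul_le_mul_of_nonneg_right hqn.le e4
        nlinarith [mul_le_mul_of_nonneg_right e3 e4, mul_nonneg hn0 hε0.le]
      exact_mod_cast e2
    rw [Finset.sum_const, smul_eq_mul] at h2
    have h3 : PP.card ≤ ((Finset.Icc 1 ⌊(3 : ℝ) * (n : ℝ)⌋₊).filter Nat.Prime).card := by
      apply Finset.card_le_card
      intro q hq
      rw [hPP, Finset.mem_filter] at hq
      unfold primesFrom at hq
      rw [Finset.mem_filter, Finset.mem_Icc] at hq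
      rw [Finset.mem_filter, Finset.mem_Icc]
      refine ⟨⟨hq.1.1.1, ?_⟩, hq.1.2.1⟩
      have : ⌊(3 : ℝ) * (n : ℝ)⌋₊ = 3 * n := by
        have : (3 : ℝ) * (n : ℝ) = ((3 * n : ℕ) : ℝ) := by push_cast; ring
        rw [this, Nat.floor_natCast]
      rw [this]
      omega
    have h4 : (V.card : ℝ) ≤ (PP.card : ℝ) * ((s : ℝ) * (C + 1)) := by
      have := h1.trans h2
      exact_mod_cast this
    have h5 : (PP.card : ℝ) ≤ η / (4 * ((s : ℝ) * (C + 1) + 1)) * n := by
      have : (PP.card : ℝ) ≤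
        ((((Finset.Icc 1 ⌊(3 : ℝ) * (n : ℝ)⌋₊).filter Nat.Prime).card : ℕ) : ℝ) := by
        exact_mod_cast h3
      exact this.trans hpr
    have hsC : (0 : ℝ) ≤ (s : ℝ) * (C + 1) := by positivity
    calc (V.card : ℝ) ≤ (PP.card : ℝ) * ((s : ℝ) * (C + 1)) := h4
      _ ≤ (η / (4 * ((s : ℝ) * (C + 1) + 1)) * n) * ((s : ℝ) * (C + 1)) :=
          mul_le_mul_of_nonneg_right h5 hsC
      _ ≤ (η / (4 * ((s : ℝ) * (C + 1) + 1)) * n) * ((s : ℝ) * (C + 1) + 1) := by
          apply mul_le_mul_of_nonneg_left (by linarith) (by positivity)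
      _ = η / 4 * n := by field_simp
  have hcard : n = U.card + T1.card + V.card + W.card := by
    rw [Nat.card_Icc] at hTU
    omega
  have hcardR : (n : ℝ) = (U.card : ℝ) + (T1.card : ℝ) + (V.card : ℝ) + (W.card : ℝ) := by
    exact_mod_cast hcard
  refine ⟨W, ?_, ?_, ?_⟩
  · intro k hk
    rw [hW, Finset.mem_filter, hT2, Finset.mem_filter, hT, Finset.mem_filter] at hk
    exact hk.1.1.1
  · nlinarith [mul_nonneg hη.le hn0]
  · intro k hk
    rw [hW, Finset.mem_filter, hT2, Finset.mem_filter, hT, Finset.mem_filter,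
      Finset.mem_Icc] at hk
    obtain ⟨⟨⟨⟨hk1, hkn⟩, q, hqp, hqn, hqB, hqd⟩, hkb⟩, hkc⟩ := hk
    have h5q : (5 : ℝ) < (q : ℝ) := by linarith
    have h5q' : 5 < q := by exact_mod_cast h5q
    have hle := le_of_dvd_num q k (n + 1) hk1 (by omega) hqd
    rw [mul_add, mul_one] at hle
    refine ⟨q, hqp, ?_, by omega, hsmall q hqp hle hqB, hle,
      fun hd => hkb ⟨q, hqp, hqn, hd⟩, hqd⟩
    by_contra hcon
    exact hkc ⟨q, hqp, hqn, hqB, by omega, hqd⟩

/-- The dichotomy in terms of `n`. -/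
theorem dichotomy_n (η : ℝ) (hη : 0 < η) :
    ∃ κ : ℝ, 0 < κ ∧ ∀ s : ℕ, ∀ᶠ n : ℕ in atTop,
      κ * (n : ℝ) ≤ ((bigIndex (s + 1) (16 * (2 * n + 2).factorial)).card : ℝ) * Real.log n ∨
      (1 - η) * (n : ℝ) ≤
        ((∑ q ∈ smallIndex s (16 * (2 * n + 2).factorial), irr q : ℕ) : ℝ) := by
  obtain ⟨κ, hκ, hD⟩ := dichotomy_set η hη
  refine ⟨κ, hκ, fun s => ?_⟩
  filter_upwards [hD s] with n hD
  rcases hD with h1 | ⟨W, hW1, hW2, hW3⟩
  · exact Or.inl h1
  right
  refine hW2.trans ?_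
  classical
  set PW : Finset ℕ := (smallIndex s (16 * (2 * n + 2).factorial)).filter
    (fun q : ℕ => q.Prime ∧ 5 ≤ q ∧ 2 * n + 3 ≤ q) with hPW
  have h1 := count_le_sum n W PW hW1
    (by
      intro q hq
      rw [hPW, Finset.mem_filter] at hq
      exact ⟨hq.2.1, hq.2.2.1⟩)
    (by
      intro k hk
      obtain ⟨q, a1, a2, a3, a4, a5, a6, a7⟩ := hW3 k hk
      refine ⟨q, ?_, a6, a7⟩
      rw [hPW, Finset.mem_filter]
      unfold smallIndex
      rw [Finset.mem_filter, Finset.mem_Icc]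
      exact ⟨⟨⟨a1.one_lt.le, a5⟩, a1, a4⟩, a1, a3, a2⟩)
  have h2 : ∑ q ∈ PW, irr q * (2 * n / (q - 1) + 1) = ∑ q ∈ PW, irr q := by
    apply Finset.sum_congr rfl
    intro q hq
    rw [hPW, Finset.mem_filter] at hq
    have : 2 * n / (q - 1) = 0 := Nat.div_eq_of_lt (by omega)
    rw [this]
    simp
  have h3 : W.card ≤ ∑ q ∈ smallIndex s (16 * (2 * n + 2).factorial), irr q := by
    rw [h2] at h1
    exact h1.trans (Finset.sum_le_sum_of_subset (Finset.filter_subset _ _))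
  exact_mod_cast h3

/-- If the index of irregularity is bounded by `s` for all but finitely many primes, then all
but `η n` of the `k ≤ n` are indices of irregular couples, for large `n`. -/
theorem density_n (s : ℕ) (hfin : {p : ℕ | p.Prime ∧ s + 1 ≤ irr p}.Finite)
    (η : ℝ) (hη : 0 < η) :
    ∀ᶠ n : ℕ in atTop, ∃ W : Finset ℕ, W ⊆ Finset.Icc 1 n ∧ (1 - η) * (n : ℝ) ≤ (W.card : ℝ) ∧
      ∀ k ∈ W, ∃ q : ℕ, q.Prime ∧ 2 * n + 3 ≤ q ∧ (q : ℤ) ∣ (bernoulli (2 * k)).num := by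
  obtain ⟨κ, hκ, hD⟩ := dichotomy_set η hη
  have hK : ∀ᶠ n : ℕ in atTop, (hfin.toFinset.card : ℝ) * Real.log n < κ * n := by
    have h1 : Tendsto (fun x : ℝ => Real.log x / x) atTop (nhds 0) :=
      Real.isLittleO_log_id_atTop.tendsto_div_nhds_zero
    have h2 : ∀ᶠ x : ℝ in atTop, Real.log x / x < κ / ((hfin.toFinset.card : ℝ) + 1) :=
      h1.eventually (gt_mem_nhds (by positivity))
    filter_upwards [tendsto_natCast_atTop_atTop.eventually h2, eventually_ge_atTop 1]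
      with n hn h1n
    have hn1 : (1 : ℝ) ≤ n := by exact_mod_cast h1n
    have hlog : 0 ≤ Real.log n := Real.log_nonneg hn1
    rw [div_lt_div_iff₀ (by linarith) (by positivity)] at hn
    have hc : (0 : ℝ) ≤ (hfin.toFinset.card : ℝ) := by positivity
    nlinarith
  filter_upwards [hD s, hK] with n hD hK
  rcases hD with h1 | ⟨W, hW1, hW2, hW3⟩
  · exfalso
    have h2 : (bigIndex (s + 1) (16 * (2 * n + 2).factorial)).card ≤ hfin.toFinset.card := by
      apply Finset.card_le_card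
      intro q hq
      unfold bigIndex at hq
      rw [Finset.mem_filter] at hq
      rw [Set.Finite.mem_toFinset]
      exact hq.2
    have h3 : ((bigIndex (s + 1) (16 * (2 * n + 2).factorial)).card : ℝ) ≤
        (hfin.toFinset.card : ℝ) := by exact_mod_cast h2
    have h4 : 0 ≤ Real.log (n : ℝ) := by positivity
    nlinarith
  · refine ⟨W, hW1, hW2, fun k hk => ?_⟩
    obtain ⟨q, a1, a2, -, -, -, -, a7⟩ := hW3 k hk
    exact ⟨q, a1, a2, a7⟩

end Pool.Agent.IrrPairs
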