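import Pool.Agent.IrrPairs.Defs

set_option autoImplicit false

namespace Pool.Agent.IrrPairs

open Finset Filter

/-- `t / log t` tends to infinity. -/
theorem rt_tendsto_div_log : Tendsto (fun t : ℝ => t / Real.log t) atTop atTop := by
  have h : Tendsto (fun t : ℝ => Real.log t / t) atTop (nhds 0) := by
    have := Real.isLittleO_log_id_atTop.tendsto_div_nhds_zero
    simpa using this
  have h2 : Tendsto (fun t : ℝ => Real.log t / t) atTop (nhdsWithin 0 (Set.Ioi 0)) := by
    refine tendsto_nhdsWithin_iff.mpr ⟨h, ?_⟩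
    filter_upwards [eventually_gt_atTop (1 : ℝ)] with t ht
    exact div_pos (Real.log_pos ht) (by linarith)
  have h3 := h2.inv_tendsto_nhdsGT_zero
  refine h3.congr ?_
  intro t
  simp [inv_div]

theorem transfer (δ : ℝ) (hδ : 0 < δ) (hδ1 : δ < 1) :
    ∃ N : ℝ → ℕ, Tendsto N atTop atTop ∧
      ∀ᶠ x : ℝ in atTop,
        ((16 * (2 * N x + 2).factorial : ℕ) : ℝ) ≤ x ∧
        (1 - δ) * (Real.log x / (2 * Real.log (Real.log x))) ≤ (N x : ℝ) ∧
        Real.log (N x) ≤ Real.log (Real.log x) := by
  have hy : Tendsto (fun x : ℝ => Real.log x / Real.log (Real.log x)) atTop atTop :=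
    rt_tendsto_div_log.comp Real.tendsto_log_atTop
  have hLL : Tendsto (fun x : ℝ => Real.log (Real.log x)) atTop atTop :=
    Real.tendsto_log_atTop.comp Real.tendsto_log_atTop
  refine ⟨fun x => ⌊(1 - δ / 2) * (Real.log x / Real.log (Real.log x)) / 2⌋₊, ?_, ?_⟩
  · refine tendsto_nat_floor_atTop.comp ?_
    have h1 : Tendsto (fun x : ℝ => (1 - δ / 2) * (Real.log x / Real.log (Real.log x)))
        atTop atTop := hy.const_mul_atTop (by linarith)
    exact h1.atTop_div_const (by norm_num)
  · filter_upwards [hy.eventually_ge_atTop (8 / δ), hLL.eventually_ge_atTop 1,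
      Real.tendsto_log_atTop.eventually_ge_atTop (4 * Real.log 16 / δ),
      eventually_gt_atTop (0 : ℝ), Real.tendsto_log_atTop.eventually_ge_atTop 1] with x h1 h2 h3 h0 h4
    set L := Real.log x with hL
    set M := Real.log L with hM
    set y := L / M with hyd
    have hMpos : 0 < M := by linarith
    have hypos : 0 < y := lt_of_lt_of_le (by positivity) h1
    have hyM : y * M = L := by rw [hyd]; field_simp
    have hyL : y ≤ L := by
      rw [← hyM]
      nlinarith
    have hdy : 8 ≤ δ * y := by
      have := (div_le_iff₀ hδ).mp h1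
      linarith
    have hdL : 4 * Real.log 16 ≤ δ * L := by
      have := (div_le_iff₀ hδ).mp h3
      linarith
    set n := ⌊(1 - δ / 2) * y / 2⌋₊ with hn
    have hfl : (n : ℝ) ≤ (1 - δ / 2) * y / 2 := by
      refine Nat.floor_le ?_
      have : 0 ≤ 1 - δ / 2 := by linarith
      positivity
    have hfl2 : (1 - δ / 2) * y / 2 < (n : ℝ) + 1 := Nat.lt_floor_add_one _
    have hn2 : (2 : ℝ) * n + 2 ≤ (1 - δ / 4) * y := by nlinarith
    have hn3 : (2 : ℝ) * n + 2 ≤ L := by
      have : (1 - δ / 4) * y ≤ y := by nlinarith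
      linarith
    have hn0 : (0 : ℝ) ≤ n := Nat.cast_nonneg n
    have hlog : Real.log (2 * n + 2) ≤ M := Real.log_le_log (by linarith) hn3
    refine ⟨?_, ?_, ?_⟩
    · have hfac : (((2 * n + 2).factorial : ℕ) : ℝ) ≤ (2 * (n : ℝ) + 2) ^ (2 * n + 2) := by
        have := Nat.factorial_le_pow (2 * n + 2)
        have h5 : (((2 * n + 2).factorial : ℕ) : ℝ) ≤ (((2 * n + 2) ^ (2 * n + 2) : ℕ) : ℝ) := by
          exact_mod_cast this
        refine h5.trans (le_of_eq ?_)
        push_cast
        ring
      have hpos : (0 : ℝ) < 2 * (n : ℝ) + 2 := by linarith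
      have hpow : (2 * (n : ℝ) + 2) ^ (2 * n + 2) ≤ Real.exp ((1 - δ / 4) * L) := by
        rw [← Real.exp_log (pow_pos hpos (2 * n + 2)), Real.log_pow]
        apply Real.exp_le_exp.mpr
        push_cast
        have hlog0 : 0 ≤ Real.log (2 * (n : ℝ) + 2) := Real.log_nonneg (by linarith)
        calc (2 * (n : ℝ) + 2) * Real.log (2 * (n : ℝ) + 2)
            ≤ ((1 - δ / 4) * y) * M := mul_le_mul hn2 hlog hlog0 (by linarith)
          _ = (1 - δ / 4) * L := by rw [mul_assoc, hyM]
      have h16 : (16 : ℝ) ≤ Real.exp (δ / 4 * L) := by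
        rw [← Real.exp_log (by norm_num : (0 : ℝ) < 16)]
        apply Real.exp_le_exp.mpr
        linarith
      have hx : x = Real.exp (δ / 4 * L) * Real.exp ((1 - δ / 4) * L) := by
        rw [← Real.exp_add]
        have : δ / 4 * L + (1 - δ / 4) * L = L := by ring
        rw [this, hL, Real.exp_log h0]
      rw [hx]
      push_cast
      exact mul_le_mul h16 (hfac.trans hpow) (by positivity) (by positivity)
    · have h6 : L / (2 * M) = y / 2 := by
        rw [hyd]; field_simp
      rw [h6]
      nlinarith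
    · rcases Nat.eq_zero_or_pos n with h7 | h7
      · rw [h7]
        simp
        exact hMpos.le
      · have : (0 : ℝ) < n := by exact_mod_cast h7
        exact Real.log_le_log this (by linarith)

end Pool.Agent.IrrPairs
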